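import Mathlib
import Pool.Graph.R_seed8.Y600.UC.Ent

set_option autoImplicit false

/-! # Entropy of a finite family of sequences along finite sets of positions -/

namespace Pool.Agent.H615.EG

open Finset Pool.Agent.Y600.UC

variable {ω A : Type*} [DecidableEq A]

/-- number of members of `Ω` which agree with `w` on the positions in `B` -/
def nb (Ω : Finset ω) (X : ω → ℕ → A) (B : Finset ℕ) (w : ω) : ℕ :=
  (Ω.filter fun v => ∀ s ∈ B, X v s = X w s).card

theorem nb_pos {Ω : Finset ω} (X : ω → ℕ → A) (B : Finset ℕ) {w : ω} (hw : w ∈ Ω) :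
    0 < nb Ω X B w :=
  Finset.card_pos.2 ⟨w, by simp [hw]⟩

theorem nb_anti (Ω : Finset ω) (X : ω → ℕ → A) {B B' : Finset ℕ} (h : B ⊆ B') (w : ω) :
    nb Ω X B' w ≤ nb Ω X B w := by
  refine Finset.card_le_card fun v hv => ?_
  rw [Finset.mem_filter] at hv ⊢
  exact ⟨hv.1, fun s hs => hv.2 s (h hs)⟩

theorem nb_empty (Ω : Finset ω) (X : ω → ℕ → A) (w : ω) : nb Ω X ∅ w = Ω.card := by
  unfold nb
  congr 1
  exact Finset.filter_true_of_mem fun v _ => by simp

/-- the entropy of the restriction to `B`, for the uniform measure on `Ω` -/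
noncomputable def en (Ω : Finset ω) (X : ω → ℕ → A) (B : Finset ℕ) : ℝ :=
  (∑ w ∈ Ω, (Real.log Ω.card - Real.log (nb Ω X B w))) / Ω.card

theorem en_sub (Ω : Finset ω) (X : ω → ℕ → A) (B B' : Finset ℕ) :
    en Ω X B' - en Ω X B =
      (∑ w ∈ Ω, (Real.log (nb Ω X B w) - Real.log (nb Ω X B' w))) / Ω.card := by
  unfold en
  rw [← sub_div, ← Finset.sum_sub_distrib]
  congr 1
  refine Finset.sum_congr rfl fun w _ => ?_
  ring

theorem en_empty (Ω : Finset ω) (X : ω → ℕ → A) : en Ω X ∅ = 0 := by
  unfold en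
  simp [nb_empty]

theorem en_mono (Ω : Finset ω) (X : ω → ℕ → A) {B B' : Finset ℕ} (h : B ⊆ B') :
    en Ω X B ≤ en Ω X B' := by
  rw [← sub_nonneg, en_sub]
  refine div_nonneg (Finset.sum_nonneg fun w hw => ?_) (Nat.cast_nonneg _)
  rw [sub_nonneg]
  refine Real.log_le_log (by exact_mod_cast nb_pos X B' hw) ?_
  exact_mod_cast nb_anti Ω X h w

theorem en_full (Ω : Finset ω) (hΩ : Ω.Nonempty) (X : ω → ℕ → A) (B : Finset ℕ)
    (hinj : ∀ v ∈ Ω, ∀ w ∈ Ω, (∀ s ∈ B, X v s = X w s) → v = w) :
    en Ω X B = Real.log Ω.card := by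
  unfold en
  have h1 : ∀ w ∈ Ω, Real.log Ω.card - Real.log (nb Ω X B w) = Real.log Ω.card := by
    intro w hw
    have : nb Ω X B w = 1 := by
      unfold nb
      rw [Finset.card_eq_one]
      refine ⟨w, ?_⟩
      ext v
      rw [Finset.mem_filter, Finset.mem_singleton]
      constructor
      · rintro ⟨hv, h⟩
        exact hinj v hv w hw h
      · rintro rfl
        exact ⟨hw, fun _ _ => rfl⟩
    rw [this]
    simp
  rw [Finset.sum_congr rfl h1, Finset.sum_const, nsmul_eq_mul]
  have : (0 : ℝ) < Ω.card := by exact_mod_cast hΩ.card_pos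
  field_simp

theorem nb_eq_fb (Ω : Finset ω) (X : ω → ℕ → A) (B : Finset ℕ) (w : ω) :
    nb Ω X B w = fb Ω (fun v => fun s : B => X v s) w := by
  unfold nb fb
  congr 1
  refine Finset.filter_congr fun v _ => ?_
  constructor
  · intro h
    funext s
    exact h s s.2
  · intro h s hs
    exact congrFun h ⟨s, hs⟩

theorem nb_insert_eq_fb (Ω : Finset ω) (X : ω → ℕ → A) (B : Finset ℕ) (t : ℕ) (w : ω) :
    nb Ω X (insert t B) w = fb Ω (fun v => ((fun s : B => X v s), X v t)) w := by
  unfold nb fb
  congr 1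
  refine Finset.filter_congr fun v _ => ?_
  constructor
  · intro h
    simp only [Prod.mk.injEq]
    refine ⟨?_, h t (Finset.mem_insert_self _ _)⟩
    funext s
    exact h s (Finset.mem_insert_of_mem s.2)
  · intro h s hs
    simp only [Prod.mk.injEq] at h
    rcases Finset.mem_insert.1 hs with rfl | hs
    · exact h.2
    · exact congrFun h.1 ⟨s, hs⟩

theorem en_insert_sub (Ω : Finset ω) (X : ω → ℕ → A) (B : Finset ℕ) (t : ℕ) :
    en Ω X (insert t B) - en Ω X B =
      (∑ w ∈ Ω, (Real.log (fb Ω (fun v => fun s : B => X v s) w) -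
        Real.log (fb Ω (fun v => ((fun s : B => X v s), X v t)) w))) / Ω.card := by
  rw [en_sub]
  congr 1
  refine Finset.sum_congr rfl fun w _ => ?_
  rw [nb_eq_fb, nb_insert_eq_fb]

/-- one more letter adds at most `log |A|` -/
theorem en_insert_le [Fintype A] (Ω : Finset ω) (X : ω → ℕ → A)
    (B : Finset ℕ) (t : ℕ) :
    en Ω X (insert t B) - en Ω X B ≤ Real.log (Fintype.card A) := by
  rcases Ω.eq_empty_or_nonempty with rfl | hΩ
  · simp only [en, Finset.sum_empty, zero_div, sub_self]
    exact Real.log_natCast_nonneg _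
  rw [en_insert_sub]
  have hN : (0 : ℝ) < Ω.card := by exact_mod_cast hΩ.card_pos
  rw [div_le_iff₀ hN]
  have h := ent_le_log Ω (fun v => fun s : B => X v s)
    (fun v => ((fun s : B => X v s), X v t)) (fun _ => (Fintype.card A : ℝ))
    (fun F _ G _ h => (Prod.mk.injEq _ _ _ _ ▸ h).1) (fun _ _ _ _ _ => rfl) (by
      intro F _
      have : ((Ω.filter fun G => (fun s : B => X G s) = (fun s : B => X F s)).image
          (fun v => ((fun s : B => X v s), X v t))).card ≤ Fintype.card A := by
        rw [← Finset.card_univ]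
        refine Finset.card_le_card_of_injOn (fun q => q.2) (fun _ _ => Finset.mem_coe.2 (Finset.mem_univ _)) ?_
        intro q hq q' hq' h
        obtain ⟨v, hv, rfl⟩ := Finset.mem_image.1 (Finset.mem_coe.1 hq)
        obtain ⟨v', hv', rfl⟩ := Finset.mem_image.1 (Finset.mem_coe.1 hq')
        have h1 := (Finset.mem_filter.1 hv).2
        have h2 := (Finset.mem_filter.1 hv').2
        exact Prod.ext (h1.trans h2.symm) h
      exact_mod_cast this)
  rw [Finset.sum_const, nsmul_eq_mul] at h
  linarith

/-- conditioning reduces entropy -/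
theorem en_submod (Ω : Finset ω) (X : ω → ℕ → A) {B B' : Finset ℕ} (h : B ⊆ B') (t : ℕ) :
    en Ω X (insert t B') - en Ω X B' ≤ en Ω X (insert t B) - en Ω X B := by
  rw [en_insert_sub, en_insert_sub]
  refine div_le_div_of_nonneg_right ?_ (Nat.cast_nonneg _)
  refine ent_submod Ω (fun v => fun s : B => X v s) (fun v => fun s : B' => X v s)
    (fun v => X v t) ?_
  intro F _ G _ hFG
  funext s
  exact congrFun hFG ⟨s, h s.2⟩

/-- the entropy of the letter at `s`, given all letters at positions `≤ s - M` -/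
noncomputable def cg (Ω : Finset ω) (X : ω → ℕ → A) (M s : ℕ) : ℝ :=
  en Ω X (insert s (range (s + 1 - M))) - en Ω X (range (s + 1 - M))

theorem cg_nonneg (Ω : Finset ω) (X : ω → ℕ → A) (M s : ℕ) : 0 ≤ cg Ω X M s :=
  sub_nonneg.2 (en_mono Ω X (Finset.subset_insert _ _))

theorem cg_le [Fintype A] (Ω : Finset ω) (X : ω → ℕ → A) (M s : ℕ) :
    cg Ω X M s ≤ Real.log (Fintype.card A) := en_insert_le Ω X _ _

theorem cg_mono (Ω : Finset ω) (X : ω → ℕ → A) {M M' : ℕ} (h : M ≤ M') (s : ℕ) :
    cg Ω X M s ≤ cg Ω X M' s :=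
  en_submod Ω X (fun x hx => by rw [Finset.mem_range] at hx ⊢; omega) s

/-- chain rule for the whole word -/
theorem sum_cg_one (Ω : Finset ω) (X : ω → ℕ → A) (n : ℕ) :
    ∑ s ∈ range n, cg Ω X 1 s = en Ω X (range n) := by
  induction n with
  | zero => simp [en_empty]
  | succ n ih =>
    rw [Finset.sum_range_succ, ih]
    unfold cg
    rw [Nat.add_sub_cancel, ← Finset.range_add_one]
    ring

/-- lower bound for the joint entropy of the letters at `s + p j`, `j ∈ H`, given the far past -/
theorem chain_lower (Ω : Finset ω) (X : ω → ℕ → A) (M p s : ℕ) (hM : M ≤ p) (H : Finset ℕ) :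
    ∑ j ∈ H, cg Ω X M (s + p * j) ≤
      en Ω X (H.image (fun j => s + p * j) ∪ range (s + 1 - M)) - en Ω X (range (s + 1 - M)) := by
  induction H using Finset.induction_on_max with
  | empty => simp
  | insert a H' hmax ih =>
    have ha : a ∉ H' := fun h => lt_irrefl _ (hmax a h)
    rw [Finset.sum_insert ha, Finset.image_insert, Finset.insert_union]
    have h1 : H'.image (fun j => s + p * j) ∪ range (s + 1 - M) ⊆ range (s + p * a + 1 - M) := by
      intro x hx
      rcases Finset.mem_union.1 hx with hx | hx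
      · obtain ⟨j, hj, rfl⟩ := Finset.mem_image.1 hx
        have := hmax j hj
        have h2 : p * j + p ≤ p * a := by
          have : p * (j + 1) ≤ p * a := Nat.mul_le_mul_left _ this
          linarith
        rw [Finset.mem_range]
        omega
      · rw [Finset.mem_range] at hx ⊢
        have : 0 ≤ p * a := Nat.zero_le _
        omega
    have h2 := en_submod Ω X h1 (s + p * a)
    have h3 : cg Ω X M (s + p * a) = en Ω X (insert (s + p * a) (range (s + p * a + 1 - M))) -
      en Ω X (range (s + p * a + 1 - M)) := rfl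
    linarith

/-- the two bounds for the conditional entropy of one letter -/
theorem single_bounds (Ω : Finset ω) (X : ω → ℕ → A) (M M' p s j : ℕ)
    (hM' : p * j + M ≤ M') :
    cg Ω X M (s + p * j) ≤
        en Ω X (insert (s + p * j) (range (s + 1 - M))) - en Ω X (range (s + 1 - M)) ∧
      en Ω X (insert (s + p * j) (range (s + 1 - M))) - en Ω X (range (s + 1 - M)) ≤
        cg Ω X M' (s + p * j) := by
  constructor
  · refine en_submod Ω X (fun x hx => ?_) _
    rw [Finset.mem_range] at hx ⊢
    omega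
  · refine en_submod Ω X (fun x hx => ?_) _
    rw [Finset.mem_range] at hx ⊢
    omega

end Pool.Agent.H615.EG
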