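import Mathlib
import Pool.Agent.H615.EG.A

set_option autoImplicit false

/-! # Small total correlation forces a box of patterns -/

namespace Pool.Agent.H615.EG

open Finset Pool.Agent.Y600.UC

variable {ω A ι : Type*} [DecidableEq A] [Fintype A] [Fintype ι] [DecidableEq ι]

/-- frequency of the letter `a` at the site `j` -/
noncomputable def fr (Ω : Finset ω) (Y : ω → ι → A) (j : ι) (a : A) : ℝ :=
  ((Ω.filter fun v => Y v j = a).card : ℝ) / Ω.card

omit [Fintype A] [Fintype ι] [DecidableEq ι] in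
theorem fr_nonneg (Ω : Finset ω) (Y : ω → ι → A) (j : ι) (a : A) : 0 ≤ fr Ω Y j a := by
  unfold fr; positivity

omit [Fintype ι] [DecidableEq ι] in
theorem fr_sum (Ω : Finset ω) (hΩ : Ω.Nonempty) (Y : ω → ι → A) (j : ι) :
    ∑ a, fr Ω Y j a = 1 := by
  have hN : (0 : ℝ) < Ω.card := by exact_mod_cast hΩ.card_pos
  unfold fr
  rw [← Finset.sum_div, div_eq_one_iff_eq hN.ne']
  have := Finset.card_eq_sum_card_fiberwise (f := fun v => Y v j) (s := Ω) (t := univ)
    (fun _ _ => by simp)
  exact_mod_cast this.symm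

omit [Fintype A] [Fintype ι] [DecidableEq ι] in
theorem fr_pos {Ω : Finset ω} (Y : ω → ι → A) (j : ι) {v : ω} (hv : v ∈ Ω) :
    0 < fr Ω Y j (Y v j) := by
  unfold fr
  have h1 : 0 < (Ω.filter fun v' => Y v' j = Y v j).card :=
    Finset.card_pos.2 ⟨v, by simp [hv]⟩
  have h2 : 0 < Ω.card := Finset.card_pos.2 ⟨v, hv⟩
  positivity

/-- unnormalised total correlation: the pointwise version -/
noncomputable def tc (Ω : Finset ω) (Y : ω → ι → A) (v : ω) : ℝ :=
  ∑ j, (Real.log Ω.card - Real.log (fb Ω (fun v => Y v j) v)) -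
    (Real.log Ω.card - Real.log (fb Ω Y v))

omit [Fintype A] [DecidableEq ι] in
/-- total correlation is at least `1 -` the product measure of the image -/
theorem tc_ge (Ω : Finset ω) (hΩ : Ω.Nonempty) (Y : ω → ι → A) :
    1 - ∑ y ∈ Ω.image Y, ∏ j, fr Ω Y j (y j) ≤ (∑ v ∈ Ω, tc Ω Y v) / Ω.card := by
  have hN : (0 : ℝ) < Ω.card := by exact_mod_cast hΩ.card_pos
  rw [le_div_iff₀ hN]
  have hterm : ∀ v ∈ Ω, 1 - (Ω.card : ℝ) * ((∏ j, fr Ω Y j (Y v j)) / (fb Ω Y v : ℝ)) ≤
      tc Ω Y v := by
    intro v hv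
    have h1 : (0 : ℝ) < fb Ω Y v := by exact_mod_cast fb_pos Y hv
    have h2 : 0 < ∏ j, fr Ω Y j (Y v j) := Finset.prod_pos fun j _ => fr_pos Y j hv
    have h3 := Real.log_le_sub_one_of_pos
      (x := (Ω.card : ℝ) * ((∏ j, fr Ω Y j (Y v j)) / (fb Ω Y v : ℝ))) (by positivity)
    rw [Real.log_mul hN.ne' (by positivity), Real.log_div h2.ne' h1.ne',
      Real.log_prod (fun j _ => (fr_pos Y j hv).ne')] at h3
    have h4 : tc Ω Y v = -(Real.log Ω.card + (∑ j, Real.log (fr Ω Y j (Y v j)) -
        Real.log (fb Ω Y v))) := by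
      unfold tc
      have : ∀ j, Real.log (fr Ω Y j (Y v j)) =
          -(Real.log Ω.card - Real.log (fb Ω (fun v => Y v j) v)) := by
        intro j
        have h5 : (0 : ℝ) < fb Ω (fun v => Y v j) v := by exact_mod_cast fb_pos (fun v => Y v j) hv
        have h6 : fr Ω Y j (Y v j) = (fb Ω (fun v => Y v j) v : ℝ) / Ω.card := rfl
        rw [h6, Real.log_div h5.ne' hN.ne']
        ring
      simp only [this, Finset.sum_neg_distrib]
      ring
    rw [h4]
    linarith
  have hsum := Finset.sum_le_sum hterm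
  rw [Finset.sum_sub_distrib, ← Finset.mul_sum,
    sum_inv_fb Ω Y (fun y => ∏ j, fr Ω Y j (y j)), Finset.sum_const, nsmul_eq_mul] at hsum
  linarith

theorem prod_total (Ω : Finset ω) (hΩ : Ω.Nonempty) (Y : ω → ι → A) :
    ∑ y : ι → A, ∏ j, fr Ω Y j (y j) = 1 := by
  have h := Finset.prod_univ_sum (fun _ : ι => (univ : Finset A)) (fun j a => fr Ω Y j a)
  rw [Fintype.piFinset_univ] at h
  rw [← h]
  exact Finset.prod_eq_one fun j _ => fr_sum Ω hΩ Y j

theorem tc_nonneg (Ω : Finset ω) (hΩ : Ω.Nonempty) (Y : ω → ι → A) :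
    0 ≤ (∑ v ∈ Ω, tc Ω Y v) / Ω.card := by
  have h := tc_ge Ω hΩ Y
  have h2 : ∑ y ∈ Ω.image Y, ∏ j, fr Ω Y j (y j) ≤ ∑ y : ι → A, ∏ j, fr Ω Y j (y j) :=
    Finset.sum_le_sum_of_subset_of_nonneg (Finset.subset_univ _)
      fun y _ _ => Finset.prod_nonneg fun j _ => fr_nonneg Ω Y j _
  rw [prod_total Ω hΩ Y] at h2
  linarith

/-- a missing pattern of positive product measure forces total correlation -/
theorem tc_ge_missing (Ω : Finset ω) (hΩ : Ω.Nonempty) (Y : ω → ι → A) (u : ι → A)
    (hu : ∀ v ∈ Ω, Y v ≠ u) :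
    ∏ j, fr Ω Y j (u j) ≤ (∑ v ∈ Ω, tc Ω Y v) / Ω.card := by
  have h := tc_ge Ω hΩ Y
  have hnot : u ∉ Ω.image Y := by
    intro hmem
    obtain ⟨v, hv, he⟩ := Finset.mem_image.1 hmem
    exact hu v hv he
  have h2 : ∑ y ∈ insert u (Ω.image Y), ∏ j, fr Ω Y j (y j) ≤
      ∑ y : ι → A, ∏ j, fr Ω Y j (y j) :=
    Finset.sum_le_sum_of_subset_of_nonneg (Finset.subset_univ _)
      fun y _ _ => Finset.prod_nonneg fun j _ => fr_nonneg Ω Y j _
  rw [prod_total Ω hΩ Y, Finset.sum_insert hnot] at h2
  linarith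

omit [Fintype ι] [DecidableEq ι] in
/-- the entropy of one letter is at most the logarithm of the number of frequent letters,
up to a small error -/
theorem single_ent_le (Ω : Finset ω) (hΩ : Ω.Nonempty) (Y : ω → ι → A) (j : ι) (η : ℝ)
    (hη : 0 < η) (hη1 : η ≤ 1) (hS : (univ.filter fun a => η ≤ fr Ω Y j a).Nonempty) :
    (∑ v ∈ Ω, (Real.log Ω.card - Real.log (fb Ω (fun v => Y v j) v))) / Ω.card ≤
      Real.log (univ.filter fun a => η ≤ fr Ω Y j a).card +
        3 * Fintype.card A * Real.sqrt η := by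
  classical
  set S := univ.filter fun a => η ≤ fr Ω Y j a with hSdef
  have hN : (0 : ℝ) < Ω.card := by exact_mod_cast hΩ.card_pos
  have hSc : (0 : ℝ) < S.card := by exact_mod_cast hS.card_pos
  have hlogS : 0 ≤ Real.log S.card := Real.log_natCast_nonneg _
  rw [div_le_iff₀ hN]
  -- the weight function
  let w : A → ℝ := fun a => if a ∈ S then (Ω.card : ℝ) / S.card
    else 2 * Real.sqrt (Ω.card : ℝ) * Real.sqrt ((Ω.filter fun v => Y v j = a).card)
  have hterm : ∀ v ∈ Ω, Real.log Ω.card - Real.log (fb Ω (fun v => Y v j) v) ≤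
      Real.log S.card + w (Y v j) / (fb Ω (fun v => Y v j) v : ℝ) -
        (if Y v j ∈ S then 1 else 0) := by
    intro v hv
    have h1 : (0 : ℝ) < fb Ω (fun v => Y v j) v := by exact_mod_cast fb_pos (fun v => Y v j) hv
    by_cases hvS : Y v j ∈ S
    · simp only [w, if_pos hvS]
      have h3 := Real.log_le_sub_one_of_pos
        (x := (Ω.card : ℝ) / S.card / (fb Ω (fun v => Y v j) v : ℝ)) (by positivity)
      rw [Real.log_div (by positivity) h1.ne', Real.log_div hN.ne' hSc.ne'] at h3
      linarith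
    · simp only [w, if_neg hvS]
      have h4 : ((Ω.filter fun v' => Y v' j = Y v j).card : ℝ) =
        (fb Ω (fun v => Y v j) v : ℝ) := rfl
      rw [h4]
      have h5 : Real.log (Ω.card : ℝ) - Real.log (fb Ω (fun v => Y v j) v) =
          2 * Real.log (Real.sqrt (Ω.card : ℝ) / Real.sqrt (fb Ω (fun v => Y v j) v : ℝ)) := by
        rw [Real.log_div (by positivity) (by positivity), Real.log_sqrt hN.le,
          Real.log_sqrt h1.le]
        ring
      have h6 := Real.log_le_sub_one_of_pos
        (x := Real.sqrt (Ω.card : ℝ) / Real.sqrt (fb Ω (fun v => Y v j) v : ℝ)) (by positivity)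
      have h7 : 2 * Real.sqrt (Ω.card : ℝ) * Real.sqrt (fb Ω (fun v => Y v j) v : ℝ) /
          (fb Ω (fun v => Y v j) v : ℝ) =
          2 * (Real.sqrt (Ω.card : ℝ) / Real.sqrt (fb Ω (fun v => Y v j) v : ℝ)) := by
        have key : ∀ x q : ℝ, 0 < q → 2 * x * q / (q * q) = 2 * (x / q) := by
          intro x q hq
          field_simp
        have h9 : 0 < Real.sqrt (fb Ω (fun v => Y v j) v : ℝ) := Real.sqrt_pos.2 h1
        have h10 := key (Real.sqrt (Ω.card : ℝ)) (Real.sqrt (fb Ω (fun v => Y v j) v : ℝ)) h9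
        rw [Real.mul_self_sqrt h1.le] at h10
        exact h10
      rw [h7, h5]
      linarith
  refine (Finset.sum_le_sum hterm).trans ?_
  rw [Finset.sum_sub_distrib, Finset.sum_add_distrib, Finset.sum_const, nsmul_eq_mul,
    sum_inv_fb Ω (fun v => Y v j) w]
  -- total weight
  have hw0 : ∀ a, 0 ≤ w a := by
    intro a
    simp only [w]
    split_ifs <;> positivity
  have hw : ∑ a ∈ Ω.image (fun v => Y v j), w a ≤
      Ω.card + 2 * (Fintype.card A * Real.sqrt η) * Ω.card := by
    calc ∑ a ∈ Ω.image (fun v => Y v j), w a ≤ ∑ a, w a :=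
          Finset.sum_le_sum_of_subset_of_nonneg (Finset.subset_univ _) fun a _ _ => hw0 a
      _ = ∑ a ∈ S, w a + ∑ a ∈ Sᶜ, w a := (Finset.sum_add_sum_compl S w).symm
      _ ≤ Ω.card + 2 * (Fintype.card A * Real.sqrt η) * Ω.card := by
          refine add_le_add ?_ ?_
          · have h1 : ∀ a ∈ S, w a = (Ω.card : ℝ) / S.card := fun a ha => by simp only [w, if_pos ha]
            rw [Finset.sum_congr rfl h1, Finset.sum_const, nsmul_eq_mul]
            exact le_of_eq (by field_simp)
          · have h2 : ∀ a ∈ Sᶜ, w a ≤ 2 * Real.sqrt η * Ω.card := by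
              intro a ha
              rw [Finset.mem_compl] at ha
              simp only [w, if_neg ha]
              have h3 : fr Ω Y j a < η := by
                by_contra h
                exact ha (by simp only [hSdef, Finset.mem_filter, Finset.mem_univ, true_and]; exact not_lt.1 h)
              unfold fr at h3
              rw [div_lt_iff₀ hN] at h3
              have h4 : Real.sqrt ((Ω.filter fun v => Y v j = a).card) ≤
                  Real.sqrt η * Real.sqrt Ω.card := by
                rw [← Real.sqrt_mul hη.le]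
                exact Real.sqrt_le_sqrt h3.le
              calc 2 * Real.sqrt (Ω.card : ℝ) * Real.sqrt ((Ω.filter fun v => Y v j = a).card)
                  ≤ 2 * Real.sqrt (Ω.card : ℝ) * (Real.sqrt η * Real.sqrt Ω.card) := by
                    gcongr
                _ = 2 * Real.sqrt η * (Real.sqrt Ω.card * Real.sqrt Ω.card) := by ring
                _ = _ := by rw [Real.mul_self_sqrt hN.le]
            calc ∑ a ∈ Sᶜ, w a ≤ ∑ a ∈ Sᶜ, 2 * Real.sqrt η * Ω.card := Finset.sum_le_sum h2
              _ = (Sᶜ.card : ℝ) * (2 * Real.sqrt η * Ω.card) := by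
                  rw [Finset.sum_const, nsmul_eq_mul]
              _ ≤ (Fintype.card A : ℝ) * (2 * Real.sqrt η * Ω.card) := by
                  gcongr
                  exact Finset.card_le_univ _
              _ = _ := by ring
  -- mass of the frequent letters
  have hm : (Ω.card : ℝ) - Fintype.card A * Real.sqrt η * Ω.card ≤
      ∑ v ∈ Ω, (if Y v j ∈ S then (1 : ℝ) else 0) := by
    have e1 : ∑ v ∈ Ω, (if Y v j ∈ S then (1 : ℝ) else 0) =
        Ω.card - ∑ v ∈ Ω, (if Y v j ∈ Sᶜ then (1 : ℝ) else 0) := by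
      rw [eq_sub_iff_add_eq, ← Finset.sum_add_distrib]
      rw [Finset.card_eq_sum_ones, Nat.cast_sum]
      refine Finset.sum_congr rfl fun v _ => ?_
      by_cases h : Y v j ∈ S
      · simp [h]
      · simp [h]
    have e2 : ∑ v ∈ Ω, (if Y v j ∈ Sᶜ then (1 : ℝ) else 0) ≤
        Fintype.card A * Real.sqrt η * Ω.card := by
      have e3 : ∑ v ∈ Ω, (if Y v j ∈ Sᶜ then (1 : ℝ) else 0) =
          ∑ a ∈ Sᶜ, ((Ω.filter fun v => Y v j = a).card : ℝ) := by
        rw [← Finset.sum_filter, Finset.sum_const, nsmul_eq_mul, mul_one]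
        have := Finset.card_eq_sum_card_fiberwise (f := fun v => Y v j)
          (s := Ω.filter fun v => Y v j ∈ Sᶜ) (t := Sᶜ)
          (fun v hv => (Finset.mem_filter.1 hv).2)
        rw [this]
        push_cast
        refine Finset.sum_congr rfl fun a ha => ?_
        rw [Finset.filter_filter]
        congr 2
        refine Finset.filter_congr fun v _ => ?_
        constructor
        · exact fun h => h.2
        · exact fun h => ⟨h ▸ ha, h⟩
      rw [e3]
      calc ∑ a ∈ Sᶜ, ((Ω.filter fun v => Y v j = a).card : ℝ)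
          ≤ ∑ a ∈ Sᶜ, Real.sqrt η * Ω.card := by
            refine Finset.sum_le_sum fun a ha => ?_
            rw [Finset.mem_compl] at ha
            have h3 : fr Ω Y j a < η := by
              by_contra h
              exact ha (by simp only [hSdef, Finset.mem_filter, Finset.mem_univ, true_and]; exact not_lt.1 h)
            unfold fr at h3
            rw [div_lt_iff₀ hN] at h3
            refine h3.le.trans ?_
            have : η ≤ Real.sqrt η := by
              rw [Real.le_sqrt hη.le hη.le]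
              nlinarith
            gcongr
        _ = (Sᶜ.card : ℝ) * (Real.sqrt η * Ω.card) := by rw [Finset.sum_const, nsmul_eq_mul]
        _ ≤ (Fintype.card A : ℝ) * (Real.sqrt η * Ω.card) := by
            gcongr
            exact Finset.card_le_univ _
        _ = _ := by ring
    rw [e1]
    linarith
  have hfin : (0 : ℝ) ≤ Real.sqrt η := Real.sqrt_nonneg _
  nlinarith

/-- the box: if the sum of the entropies minus `K` times the total correlation is large,
then a large box of patterns occurs -/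
theorem box (Ω : Finset ω) (hΩ : Ω.Nonempty) (Y : ω → ι → A) (K η θ : ℝ)
    (hK : 0 < K) (hη : 0 < η) (hη1 : η ≤ 1) (hηA : η * Fintype.card A < 1) (hθ : 0 ≤ θ)
    (hKη : Fintype.card ι * Real.log (Fintype.card A) < K * η ^ Fintype.card ι)
    (h : θ ≤ ∑ j, (∑ v ∈ Ω, (Real.log Ω.card - Real.log (fb Ω (fun v => Y v j) v))) / Ω.card -
      K * ((∑ v ∈ Ω, tc Ω Y v) / Ω.card)) :
    ∃ S : ι → Finset A, (∀ j, (S j).Nonempty) ∧
      θ - Fintype.card ι * (3 * Fintype.card A * Real.sqrt η) ≤ ∑ j, Real.log (S j).card ∧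
      ∀ u : ι → A, (∀ j, u j ∈ S j) → ∃ v ∈ Ω, Y v = u := by
  have hN : (0 : ℝ) < Ω.card := by exact_mod_cast hΩ.card_pos
  set S : ι → Finset A := fun j => univ.filter fun a => η ≤ fr Ω Y j a with hSdef
  have hSne : ∀ j, (S j).Nonempty := by
    intro j
    by_contra hne
    rw [Finset.not_nonempty_iff_eq_empty] at hne
    have h1 : ∀ a, fr Ω Y j a < η := by
      intro a
      by_contra h2
      have : a ∈ S j := by
        simp only [hSdef, Finset.mem_filter, Finset.mem_univ, true_and]; exact not_lt.1 h2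
      rw [hne] at this
      exact absurd this (Finset.notMem_empty _)
    have h2 : (1 : ℝ) ≤ η * Fintype.card A := by
      rw [← fr_sum Ω hΩ Y j]
      calc ∑ a, fr Ω Y j a ≤ ∑ _a : A, η := Finset.sum_le_sum fun a _ => (h1 a).le
        _ = η * Fintype.card A := by
          rw [Finset.sum_const, nsmul_eq_mul, Finset.card_univ, mul_comm]
    linarith
  have htc := tc_nonneg Ω hΩ Y
  refine ⟨S, hSne, ?_, ?_⟩
  · have h1 : ∑ j, (∑ v ∈ Ω, (Real.log Ω.card - Real.log (fb Ω (fun v => Y v j) v))) / Ω.card ≤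
        ∑ j, (Real.log (S j).card + 3 * Fintype.card A * Real.sqrt η) :=
      Finset.sum_le_sum fun j _ => single_ent_le Ω hΩ Y j η hη hη1 (hSne j)
    rw [Finset.sum_add_distrib, Finset.sum_const, nsmul_eq_mul, Finset.card_univ] at h1
    have h2 : 0 ≤ K * ((∑ v ∈ Ω, tc Ω Y v) / Ω.card) := mul_nonneg hK.le htc
    linarith
  · intro u hu
    by_contra hcon
    push Not at hcon
    have h1 := tc_ge_missing Ω hΩ Y u hcon
    have h2 : η ^ Fintype.card ι ≤ ∏ j, fr Ω Y j (u j) := by
      rw [← Finset.card_univ, ← Finset.prod_const]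
      refine Finset.prod_le_prod (fun _ _ => hη.le) fun j _ => ?_
      have := hu j
      simp only [hSdef, Finset.mem_filter, Finset.mem_univ, true_and] at this
      exact this
    have h3 : ∀ j : ι, (∑ v ∈ Ω, (Real.log Ω.card - Real.log (fb Ω (fun v => Y v j) v))) /
        Ω.card ≤ Real.log (Fintype.card A) := by
      intro j
      rw [div_le_iff₀ hN]
      have hcard : (0 : ℝ) < Fintype.card A := by
        obtain ⟨v, hv⟩ := hΩ
        have : 0 < Fintype.card A := Fintype.card_pos_iff.2 ⟨Y v j⟩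
        exact_mod_cast this
      have hterm : ∀ v ∈ Ω, Real.log Ω.card - Real.log (fb Ω (fun v => Y v j) v) ≤
          Real.log (Fintype.card A) +
            (((Ω.card : ℝ) / Fintype.card A) / (fb Ω (fun v => Y v j) v : ℝ) - 1) := by
        intro v hv
        have h1 : (0 : ℝ) < fb Ω (fun v => Y v j) v := by
          exact_mod_cast fb_pos (fun v => Y v j) hv
        have h3 := Real.log_le_sub_one_of_pos
          (x := (Ω.card : ℝ) / Fintype.card A / (fb Ω (fun v => Y v j) v : ℝ)) (by positivity)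
        rw [Real.log_div (by positivity) h1.ne', Real.log_div hN.ne' hcard.ne'] at h3
        linarith
      refine (Finset.sum_le_sum hterm).trans ?_
      rw [Finset.sum_add_distrib, Finset.sum_sub_distrib, Finset.sum_const, Finset.sum_const,
        nsmul_eq_mul, nsmul_eq_mul,
        sum_inv_fb Ω (fun v => Y v j) (fun _ => (Ω.card : ℝ) / Fintype.card A),
        Finset.sum_const, nsmul_eq_mul]
      have h5 : ((Ω.image fun v => Y v j).card : ℝ) ≤ Fintype.card A := by
        exact_mod_cast Finset.card_le_univ _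
      have h6 : ((Ω.image fun v => Y v j).card : ℝ) * ((Ω.card : ℝ) / Fintype.card A) ≤
          Ω.card := by
        rw [mul_div_assoc', div_le_iff₀ hcard]
        nlinarith
      linarith
    have h4 : ∑ j, (∑ v ∈ Ω, (Real.log Ω.card - Real.log (fb Ω (fun v => Y v j) v))) / Ω.card ≤
        Fintype.card ι * Real.log (Fintype.card A) := by
      refine (Finset.sum_le_sum fun j _ => h3 j).trans ?_
      rw [Finset.sum_const, nsmul_eq_mul, Finset.card_univ]
    have h5 : K * η ^ Fintype.card ι ≤ K * ((∑ v ∈ Ω, tc Ω Y v) / Ω.card) :=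
      mul_le_mul_of_nonneg_left (h2.trans h1) hK.le
    linarith

end Pool.Agent.H615.EG
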