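import Mathlib
import Pool.Agent.H615.EG.B

set_option autoImplicit false

/-! # Passing to a good atom of the past -/

namespace Pool.Agent.H615.EG

open Finset Pool.Agent.Y600.UC

variable {ω A ι : Type*} [DecidableEq A] [Fintype A] [Fintype ι] [DecidableEq ι]

omit [Fintype A] in
/-- the average over `Ω` is the average of the averages over the atoms -/
theorem exists_atom (Ω : Finset ω) (hΩ : Ω.Nonempty) (X : ω → ℕ → A) (G : Finset ℕ)
    (F : ω → ℝ) (θ : ℝ) (h : θ ≤ (∑ w ∈ Ω, F w) / Ω.card) :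
    ∃ w ∈ Ω, θ ≤ (∑ v ∈ Ω.filter (fun v => ∀ s ∈ G, X v s = X w s), F v) /
      (Ω.filter (fun v => ∀ s ∈ G, X v s = X w s)).card := by
  by_contra hcon
  push Not at hcon
  have hN : (0 : ℝ) < Ω.card := by exact_mod_cast hΩ.card_pos
  rw [le_div_iff₀ hN] at h
  have e1 : ∑ w ∈ Ω, F w = ∑ w ∈ Ω, (nb Ω X G w : ℝ) * (F w / nb Ω X G w) := by
    refine Finset.sum_congr rfl fun w hw => ?_
    have : (0 : ℝ) < nb Ω X G w := by exact_mod_cast nb_pos X G hw
    field_simp
  have e2 : ∑ w ∈ Ω, (nb Ω X G w : ℝ) * (F w / nb Ω X G w) =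
      ∑ w ∈ Ω, ∑ v ∈ Ω.filter (fun v => ∀ s ∈ G, X v s = X w s), F v / nb Ω X G v := by
    have := sum_fb_mul Ω (fun v => fun s : G => X v s) (fun w => F w / nb Ω X G w)
    simp only [← nb_eq_fb] at this
    rw [this]
    refine Finset.sum_congr rfl fun w _ => ?_
    refine Finset.sum_congr ?_ fun _ _ => rfl
    refine Finset.filter_congr fun v _ => ?_
    constructor
    · intro h s hs
      exact congrFun h ⟨s, hs⟩
    · intro h
      funext s
      exact h s s.2
  have e3 : ∀ w ∈ Ω, ∑ v ∈ Ω.filter (fun v => ∀ s ∈ G, X v s = X w s), F v / nb Ω X G v < θ := by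
    intro w hw
    have h1 := hcon w hw
    have h2 : ∀ v ∈ Ω.filter (fun v => ∀ s ∈ G, X v s = X w s), F v / (nb Ω X G v : ℝ) =
        F v / ((Ω.filter (fun v => ∀ s ∈ G, X v s = X w s)).card : ℝ) := by
      intro v hv
      have hv2 := (Finset.mem_filter.1 hv).2
      have : nb Ω X G v = (Ω.filter (fun v => ∀ s ∈ G, X v s = X w s)).card := by
        unfold nb
        congr 1
        refine Finset.filter_congr fun v' _ => ?_
        constructor
        · exact fun h s hs => (h s hs).trans (hv2 s hs)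
        · exact fun h s hs => (h s hs).trans (hv2 s hs).symm
      rw [this]
    rw [Finset.sum_congr rfl h2, ← Finset.sum_div]
    exact h1
  rw [e1, e2] at h
  have h3 : ∑ w ∈ Ω, ∑ v ∈ Ω.filter (fun v => ∀ s ∈ G, X v s = X w s), F v / nb Ω X G v <
      ∑ _w ∈ Ω, θ := Finset.sum_lt_sum_of_nonempty hΩ e3
  rw [Finset.sum_const, nsmul_eq_mul] at h3
  linarith

/-- a box of patterns at the sites `σ j` -/
theorem atom_box (Ω : Finset ω) (hΩ : Ω.Nonempty) (X : ω → ℕ → A) (G : Finset ℕ)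
    (σ : ι → ℕ) (K η θ : ℝ)
    (hK : 0 < K) (hη : 0 < η) (hη1 : η ≤ 1) (hηA : η * Fintype.card A < 1) (hθ : 0 ≤ θ)
    (hKη : Fintype.card ι * Real.log (Fintype.card A) < K * η ^ Fintype.card ι)
    (h : θ ≤ ∑ j, (en Ω X (insert (σ j) G) - en Ω X G) -
      K * (∑ j, (en Ω X (insert (σ j) G) - en Ω X G) -
        (en Ω X (univ.image σ ∪ G) - en Ω X G))) :
    ∃ S : ι → Finset A, (∀ j, (S j).Nonempty) ∧
      θ - Fintype.card ι * (3 * Fintype.card A * Real.sqrt η) ≤ ∑ j, Real.log (S j).card ∧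
      ∀ u : ι → A, (∀ j, u j ∈ S j) → ∃ v ∈ Ω, ∀ j, X v (σ j) = u j := by
  set F : ω → ℝ := fun w =>
    ∑ j, (Real.log (nb Ω X G w) - Real.log (nb Ω X (insert (σ j) G) w)) -
      K * (∑ j, (Real.log (nb Ω X G w) - Real.log (nb Ω X (insert (σ j) G) w)) -
        (Real.log (nb Ω X G w) - Real.log (nb Ω X (univ.image σ ∪ G) w))) with hF
  have hsum : (∑ w ∈ Ω, F w) / Ω.card = ∑ j, (en Ω X (insert (σ j) G) - en Ω X G) -
      K * (∑ j, (en Ω X (insert (σ j) G) - en Ω X G) -
        (en Ω X (univ.image σ ∪ G) - en Ω X G)) := by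
    simp only [en_sub]
    rw [← Finset.sum_div, Finset.sum_comm]
    simp only [hF]
    rw [Finset.sum_sub_distrib, ← Finset.mul_sum, Finset.sum_sub_distrib]
    ring
  rw [← hsum] at h
  obtain ⟨w, hw, hwθ⟩ := exists_atom Ω hΩ X G F θ h
  set Ω' := Ω.filter (fun v => ∀ s ∈ G, X v s = X w s) with hΩ'
  have hΩ'ne : Ω'.Nonempty := ⟨w, by simp [hΩ', hw]⟩
  set Y : ω → ι → A := fun v j => X v (σ j) with hY
  have h1 : ∀ v ∈ Ω', nb Ω X G v = Ω'.card := by
    intro v hv
    have hv2 := (Finset.mem_filter.1 hv).2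
    unfold nb
    rw [hΩ']
    congr 1
    refine Finset.filter_congr fun v' _ => ?_
    constructor
    · exact fun h s hs => (h s hs).trans (hv2 s hs)
    · exact fun h s hs => (h s hs).trans (hv2 s hs).symm
  have h2 : ∀ v ∈ Ω', ∀ j, nb Ω X (insert (σ j) G) v = fb Ω' (fun v => Y v j) v := by
    intro v hv j
    have hv2 := (Finset.mem_filter.1 hv).2
    unfold nb fb
    rw [hΩ', Finset.filter_filter]
    congr 1
    refine Finset.filter_congr fun v' _ => ?_
    constructor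
    · intro h
      exact ⟨fun s hs => (h s (Finset.mem_insert_of_mem hs)).trans (hv2 s hs),
        h _ (Finset.mem_insert_self _ _)⟩
    · rintro ⟨h3, h4⟩ s hs
      rcases Finset.mem_insert.1 hs with rfl | hs
      · exact h4
      · exact (h3 s hs).trans (hv2 s hs).symm
  have h3 : ∀ v ∈ Ω', nb Ω X (univ.image σ ∪ G) v = fb Ω' Y v := by
    intro v hv
    have hv2 := (Finset.mem_filter.1 hv).2
    unfold nb fb
    rw [hΩ', Finset.filter_filter]
    congr 1
    refine Finset.filter_congr fun v' _ => ?_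
    constructor
    · intro h
      refine ⟨fun s hs => (h s (Finset.mem_union_right _ hs)).trans (hv2 s hs), ?_⟩
      funext j
      exact h _ (Finset.mem_union_left _ (Finset.mem_image_of_mem _ (Finset.mem_univ j)))
    · rintro ⟨h3, h4⟩ s hs
      rcases Finset.mem_union.1 hs with hs | hs
      · obtain ⟨j, _, rfl⟩ := Finset.mem_image.1 hs
        exact congrFun h4 j
      · exact (h3 s hs).trans (hv2 s hs).symm
  have h4 : ∑ v ∈ Ω', F v = ∑ v ∈ Ω', (∑ j, (Real.log Ω'.card - Real.log (fb Ω' (fun v => Y v j) v)) -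
      K * tc Ω' Y v) := by
    refine Finset.sum_congr rfl fun v hv => ?_
    simp only [hF, tc]
    rw [h1 v hv, h3 v hv]
    simp only [h2 v hv]
  have h5 : (∑ v ∈ Ω', F v) / Ω'.card =
      ∑ j, (∑ v ∈ Ω', (Real.log Ω'.card - Real.log (fb Ω' (fun v => Y v j) v))) / Ω'.card -
      K * ((∑ v ∈ Ω', tc Ω' Y v) / Ω'.card) := by
    rw [h4, Finset.sum_sub_distrib, ← Finset.mul_sum, ← Finset.sum_div, Finset.sum_comm]
    ring
  rw [h5] at hwθ
  obtain ⟨S, hS1, hS2, hS3⟩ := box Ω' hΩ'ne Y K η θ hK hη hη1 hηA hθ hKη hwθ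
  refine ⟨S, hS1, hS2, fun u hu => ?_⟩
  obtain ⟨v, hv, hvu⟩ := hS3 u hu
  exact ⟨v, (Finset.mem_filter.1 hv).1, fun j => congrFun hvu j⟩

end Pool.Agent.H615.EG
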