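import Mathlib

set_option autoImplicit false

/-! # Turán–Kubilius: a function is well distributed along the multiples of some prime -/

namespace Pool.Agent.H615.EG

open Finset

/-- number of `s < n` with `d ∣ r + s` -/
theorem count_dvd (d r n : ℕ) (hd : 0 < d) :
    (((range n).filter fun s => d ∣ r + s).card : ℝ) ≤ n / d + 1 ∧
      (n : ℝ) / d - 1 ≤ ((range n).filter fun s => d ∣ r + s).card := by
  have h1 : (range n).filter (fun s => d ∣ r + s) =
      (range n).filter (fun s => s ≡ d * r - r [MOD d]) := by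
    refine Finset.filter_congr fun s _ => ?_
    have h2 : r ≤ d * r := Nat.le_mul_of_pos_left r hd
    constructor
    · intro h
      have h3 : r + s ≡ r + (d * r - r) [MOD d] := by
        have h4 : r + (d * r - r) = d * r := by omega
        rw [h4]
        exact ((Nat.modEq_zero_iff_dvd.2 h).trans
          (Nat.modEq_zero_iff_dvd.2 (Dvd.intro r rfl)).symm)
      exact Nat.ModEq.add_left_cancel' r h3
    · intro h
      have h3 : r + s ≡ r + (d * r - r) [MOD d] := Nat.ModEq.add_left r h
      have h4 : r + (d * r - r) = d * r := by omega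
      rw [h4] at h3
      exact Nat.modEq_zero_iff_dvd.1 (h3.trans (Nat.modEq_zero_iff_dvd.2 (Dvd.intro r rfl)))
  rw [h1, ← Nat.count_eq_card_filter_range, Nat.count_modEq_card _ hd]
  have hd' : (0 : ℝ) < d := by exact_mod_cast hd
  have h5 : ((n / d : ℕ) : ℝ) ≤ (n : ℝ) / d := Nat.cast_div_le
  have h6 : (n : ℝ) / d - 1 ≤ ((n / d : ℕ) : ℝ) := by
    rw [sub_le_iff_le_add, div_le_iff₀ hd']
    have := Nat.lt_div_mul_add hd (a := n)
    have h7 : (n : ℝ) < (n / d : ℕ) * d + d := by exact_mod_cast this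
    linarith
  constructor
  · split_ifs
    · push_cast; linarith
    · push_cast; linarith
  · split_ifs
    · push_cast; linarith
    · push_cast; linarith

/-- second moment of the number of prime divisors from a finite set -/
theorem tk (Q : Finset ℕ) (hQ : ∀ p ∈ Q, p.Prime) (r n : ℕ) :
    ∑ s ∈ range n, (((Q.filter fun p => p ∣ r + s).card : ℝ) - ∑ p ∈ Q, (1 : ℝ) / p) ^ 2 ≤
      n * ∑ p ∈ Q, (1 : ℝ) / p + 4 * (Q.card : ℝ) ^ 2 := by
  set W : ℝ := ∑ p ∈ Q, (1 : ℝ) / p with hW
  have hZ : ∀ s, ((Q.filter fun p => p ∣ r + s).card : ℝ) =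
      ∑ p ∈ Q, if p ∣ r + s then (1 : ℝ) else 0 := by
    intro s
    rw [← Finset.sum_filter, Finset.sum_const, nsmul_eq_mul, mul_one]
  have hW0 : 0 ≤ W := Finset.sum_nonneg fun p _ => by positivity
  have hWc : W ≤ Q.card := by
    rw [hW, Finset.card_eq_sum_ones, Nat.cast_sum]
    refine Finset.sum_le_sum fun p hp => ?_
    have : (1 : ℝ) ≤ p := by exact_mod_cast (hQ p hp).one_lt.le
    rw [Nat.cast_one, div_le_one (by linarith)]
    exact this
  -- first moment
  have hfirst : n * W - Q.card ≤ ∑ s ∈ range n, ((Q.filter fun p => p ∣ r + s).card : ℝ) := by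
    simp only [hZ]
    rw [Finset.sum_comm]
    have h1 : ∀ p ∈ Q, (n : ℝ) * (1 / p) - 1 ≤ ∑ s ∈ range n, if p ∣ r + s then (1 : ℝ) else 0 := by
      intro p hp
      rw [← Finset.sum_filter, Finset.sum_const, nsmul_eq_mul, mul_one, mul_one_div]
      exact (count_dvd p r n (hQ p hp).pos).2
    have h2 := Finset.sum_le_sum h1
    rw [Finset.sum_sub_distrib, ← Finset.mul_sum, Finset.sum_const, nsmul_eq_mul, mul_one] at h2
    exact h2
  -- second moment
  have hsecond : ∑ s ∈ range n, ((Q.filter fun p => p ∣ r + s).card : ℝ) ^ 2 ≤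
      n * W + n * W ^ 2 + 2 * (Q.card : ℝ) ^ 2 := by
    have e1 : ∀ s, ((Q.filter fun p => p ∣ r + s).card : ℝ) ^ 2 =
        ∑ p ∈ Q, ∑ q ∈ Q, if p ∣ r + s ∧ q ∣ r + s then (1 : ℝ) else 0 := by
      intro s
      rw [hZ, sq, Finset.sum_mul_sum]
      refine Finset.sum_congr rfl fun p _ => Finset.sum_congr rfl fun q _ => ?_
      by_cases h1 : p ∣ r + s <;> by_cases h2 : q ∣ r + s <;> simp [h1, h2]
    simp only [e1]
    rw [Finset.sum_comm]
    have h3 : ∀ p ∈ Q, ∑ s ∈ range n, ∑ q ∈ Q, (if p ∣ r + s ∧ q ∣ r + s then (1 : ℝ) else 0) ≤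
        (n : ℝ) * (1 / p) + 1 + (n * (1 / p) * W + Q.card) := by
      intro p hp
      rw [Finset.sum_comm]
      have hpp := hQ p hp
      have hp0 : (0 : ℝ) < p := by exact_mod_cast hpp.pos
      have h4 : ∀ q ∈ Q, ∑ s ∈ range n, (if p ∣ r + s ∧ q ∣ r + s then (1 : ℝ) else 0) ≤
          (if q = p then (n : ℝ) * (1 / p) + 1 else 0) + (n * (1 / p) * (1 / q) + 1) := by
        intro q hq
        have hqq := hQ q hq
        have hq0 : (0 : ℝ) < q := by exact_mod_cast hqq.pos
        rw [← Finset.sum_filter, Finset.sum_const, nsmul_eq_mul, mul_one]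
        by_cases hqp : q = p
        · subst hqp
          simp only [and_self, if_true]
          have h5 := (count_dvd q r n hqq.pos).1
          have h6 : (0 : ℝ) ≤ n * (1 / q) * (1 / q) := by positivity
          have h7 := mul_one_div (n : ℝ) (q : ℝ)
          rw [h7] at h6 ⊢
          linarith
        · rw [if_neg hqp]
          have hcop : Nat.Coprime p q := (Nat.coprime_primes hpp hqq).2 (Ne.symm hqp)
          have h5 : (range n).filter (fun s => p ∣ r + s ∧ q ∣ r + s) =
              (range n).filter (fun s => p * q ∣ r + s) := by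
            refine Finset.filter_congr fun s _ => ?_
            constructor
            · rintro ⟨h1, h2⟩
              exact hcop.mul_dvd_of_dvd_of_dvd h1 h2
            · intro h
              exact ⟨(Dvd.intro _ rfl).trans h, (Dvd.intro_left _ rfl).trans h⟩
          rw [h5]
          have h6 := (count_dvd (p * q) r n (Nat.mul_pos hpp.pos hqq.pos)).1
          have h7 : (n : ℝ) / ((p * q : ℕ) : ℝ) = n * (1 / p) * (1 / q) := by
            push_cast
            field_simp
          rw [h7] at h6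
          linarith
      refine (Finset.sum_le_sum h4).trans ?_
      rw [Finset.sum_add_distrib, Finset.sum_add_distrib, ← Finset.mul_sum, Finset.sum_const,
        nsmul_eq_mul, mul_one, Finset.sum_ite_eq' Q p, if_pos hp]
    refine (Finset.sum_le_sum h3).trans ?_
    rw [Finset.sum_add_distrib, Finset.sum_add_distrib, Finset.sum_add_distrib, ← Finset.mul_sum,
      ← Finset.sum_mul, ← Finset.mul_sum, Finset.sum_const, Finset.sum_const, nsmul_eq_mul,
      nsmul_eq_mul, mul_one]
    have hc : (Q.card : ℝ) ≤ (Q.card : ℝ) ^ 2 := by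
      rcases Nat.eq_zero_or_pos Q.card with h | h
      · rw [h]; simp
      · have : (1 : ℝ) ≤ Q.card := by exact_mod_cast h
        nlinarith
    rw [← hW]
    nlinarith
  have hexp : ∑ s ∈ range n, (((Q.filter fun p => p ∣ r + s).card : ℝ) - W) ^ 2 =
      ∑ s ∈ range n, ((Q.filter fun p => p ∣ r + s).card : ℝ) ^ 2 -
        2 * W * ∑ s ∈ range n, ((Q.filter fun p => p ∣ r + s).card : ℝ) + n * W ^ 2 := by
    rw [Finset.mul_sum, ← Finset.sum_sub_distrib]
    have : (n : ℝ) * W ^ 2 = ∑ _s ∈ range n, W ^ 2 := by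
      rw [Finset.sum_const, nsmul_eq_mul, Finset.card_range]
    rw [this, ← Finset.sum_add_distrib]
    refine Finset.sum_congr rfl fun s _ => ?_
    ring
  rw [hexp]
  have h8 : W * (n * W - Q.card) ≤
      W * ∑ s ∈ range n, ((Q.filter fun p => p ∣ r + s).card : ℝ) :=
    mul_le_mul_of_nonneg_left hfirst hW0
  have h9 : W * Q.card ≤ (Q.card : ℝ) ^ 2 := by nlinarith
  nlinarith

/-- along the multiples of some prime of `Q` the function is not much smaller than on average -/
theorem choose_prime (Q : Finset ℕ) (hQ : ∀ p ∈ Q, p.Prime) (r n : ℕ) (φ : ℕ → ℝ) (B : ℝ)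
    (hφ : ∀ s < n, |φ s| ≤ B) (hB : 0 ≤ B) (W : ℝ) (hWdef : W = ∑ p ∈ Q, (1 : ℝ) / p)
    (hW : 1 ≤ W) (hn : 4 * (Q.card : ℝ) ^ 2 ≤ n) :
    ∃ p ∈ Q, (∑ s ∈ range n, φ s - B * n * Real.sqrt (2 / W)) / p ≤
      ∑ s ∈ (range n).filter (fun s => p ∣ r + s), φ s := by
  have hn0 : (0 : ℝ) ≤ n := Nat.cast_nonneg _
  by_contra hcon
  push Not at hcon
  have hQne : Q.Nonempty := by
    rw [Finset.nonempty_iff_ne_empty]
    rintro rfl
    rw [Finset.sum_empty] at hWdef
    linarith
  have h1 := Finset.sum_lt_sum_of_nonempty hQne hcon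
  have h2 : ∑ p ∈ Q, (∑ s ∈ range n, φ s - B * n * Real.sqrt (2 / W)) / (p : ℝ) =
      (∑ s ∈ range n, φ s - B * n * Real.sqrt (2 / W)) * W := by
    rw [hWdef, Finset.mul_sum]
    refine Finset.sum_congr rfl fun p _ => ?_
    rw [mul_one_div]
  have h3 : ∑ p ∈ Q, ∑ s ∈ (range n).filter (fun s => p ∣ r + s), φ s =
      ∑ s ∈ range n, φ s * ((Q.filter fun p => p ∣ r + s).card : ℝ) := by
    simp only [Finset.sum_filter]
    rw [Finset.sum_comm]
    refine Finset.sum_congr rfl fun s _ => ?_
    rw [← Finset.sum_filter, Finset.sum_const, nsmul_eq_mul, mul_comm]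
  rw [h2, h3] at h1
  have h4 : ∑ s ∈ range n, φ s * (W - ((Q.filter fun p => p ∣ r + s).card : ℝ)) ≤
      B * n * Real.sqrt (2 / W) * W := by
    have e1 : ∑ s ∈ range n, φ s * (W - ((Q.filter fun p => p ∣ r + s).card : ℝ)) ≤
        ∑ s ∈ range n, B * |((Q.filter fun p => p ∣ r + s).card : ℝ) - W| := by
      refine Finset.sum_le_sum fun s hs => ?_
      refine (le_abs_self _).trans ?_
      rw [abs_mul, abs_sub_comm]
      exact mul_le_mul_of_nonneg_right (hφ s (Finset.mem_range.1 hs)) (abs_nonneg _)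
    rw [← Finset.mul_sum] at e1
    have e2 : (∑ s ∈ range n, |((Q.filter fun p => p ∣ r + s).card : ℝ) - W|) ^ 2 ≤
        n * (2 * n * W) := by
      have := sq_sum_le_card_mul_sum_sq (s := range n)
        (f := fun s => |((Q.filter fun p => p ∣ r + s).card : ℝ) - W|)
      rw [Finset.card_range] at this
      simp only [sq_abs] at this
      refine this.trans ?_
      refine mul_le_mul_of_nonneg_left ?_ hn0
      have htk := tk Q hQ r n
      rw [← hWdef] at htk
      nlinarith
    have e3 : ∑ s ∈ range n, |((Q.filter fun p => p ∣ r + s).card : ℝ) - W| ≤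
        n * Real.sqrt (2 / W) * W := by
      have e4 : (n * Real.sqrt (2 / W) * W) ^ 2 = n * (2 * n * W) := by
        have : Real.sqrt (2 / W) ^ 2 = 2 / W := Real.sq_sqrt (by positivity)
        calc (n * Real.sqrt (2 / W) * W) ^ 2 = n ^ 2 * (Real.sqrt (2 / W) ^ 2) * W ^ 2 := by ring
          _ = n * (2 * n * W) := by
            rw [this]
            field_simp
      rw [← e4] at e2
      exact le_of_sq_le_sq e2 (by positivity)
    calc _ ≤ B * ∑ s ∈ range n, |((Q.filter fun p => p ∣ r + s).card : ℝ) - W| := e1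
      _ ≤ B * (n * Real.sqrt (2 / W) * W) := mul_le_mul_of_nonneg_left e3 hB
      _ = _ := by ring
  have h5 : ∑ s ∈ range n, φ s * (W - ((Q.filter fun p => p ∣ r + s).card : ℝ)) =
      (∑ s ∈ range n, φ s) * W - ∑ s ∈ range n, φ s * ((Q.filter fun p => p ∣ r + s).card : ℝ) := by
    rw [Finset.sum_mul, ← Finset.sum_sub_distrib]
    refine Finset.sum_congr rfl fun s _ => ?_
    ring
  rw [h5] at h4
  linarith

end Pool.Agent.H615.EG
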