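import Mathlib
import Pool.Agent.H615.EG.C
import Pool.Agent.H615.EG.T

set_option autoImplicit false

/-! # Choice of the scale, of the prime and of the base point -/

namespace Pool.Agent.H615.EG

open Finset Pool.Agent.Y600.UC

/-- shifting by a multiple of `p` loses at most `D + 1` terms -/
theorem shift_sum (p r n D j : ℕ) (hp : 0 < p) (hj : j ≤ D) (hn : p * D ≤ n) (φ : ℕ → ℝ) (B : ℝ)
    (hφ : ∀ s < n, |φ s| ≤ B) (hB : 0 ≤ B) :
    ∑ s ∈ (range n).filter (fun s => p ∣ r + s), φ s - B * (D + 1) ≤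
      ∑ s ∈ (range (n - p * D)).filter (fun s => p ∣ r + s), φ (s + p * j) := by
  set C := (range n).filter (fun s => p ∣ r + s) with hC
  set base := (range (n - p * D)).filter (fun s => p ∣ r + s) with hbase
  have hpj : p * j ≤ p * D := Nat.mul_le_mul_left _ hj
  have hinj : Set.InjOn (fun s => s + p * j) (base : Set ℕ) := fun a _ b _ h => by
    simpa using h
  have e1 : ∑ s ∈ base, φ (s + p * j) = ∑ s ∈ base.image (fun s => s + p * j), φ s :=
    (Finset.sum_image hinj).symm
  have hsub : base.image (fun s => s + p * j) ⊆ C := by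
    intro x hx
    obtain ⟨s, hs, rfl⟩ := Finset.mem_image.1 hx
    rw [hbase, Finset.mem_filter, Finset.mem_range] at hs
    rw [hC, Finset.mem_filter, Finset.mem_range]
    refine ⟨by omega, ?_⟩
    rw [← add_assoc]
    exact (Nat.dvd_add_right hs.2).2 (Dvd.intro _ rfl)
  have hcard : (C.card : ℝ) ≤ base.card + (D + 1) := by
    have h1 : C ⊆ base ∪ ((range (p * D)).filter (fun s => p ∣ (r + (n - p * D)) + s)).image
        (fun s => s + (n - p * D)) := by
      intro x hx
      rw [hC, Finset.mem_filter, Finset.mem_range] at hx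
      rw [Finset.mem_union]
      by_cases h : x < n - p * D
      · left
        rw [hbase, Finset.mem_filter, Finset.mem_range]
        exact ⟨h, hx.2⟩
      · right
        rw [Finset.mem_image]
        refine ⟨x - (n - p * D), ?_, by omega⟩
        rw [Finset.mem_filter, Finset.mem_range]
        refine ⟨by omega, ?_⟩
        have : r + (n - p * D) + (x - (n - p * D)) = r + x := by omega
        rw [this]
        exact hx.2
    have h2 := (Finset.card_le_card h1).trans (Finset.card_union_le _ _)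
    have h3 : (((range (p * D)).filter (fun s => p ∣ (r + (n - p * D)) + s)).image
        (fun s => s + (n - p * D))).card ≤
        ((range (p * D)).filter (fun s => p ∣ (r + (n - p * D)) + s)).card :=
      Finset.card_image_le
    have h4 := (count_dvd p (r + (n - p * D)) (p * D) hp).1
    have h5 : (((p * D : ℕ) : ℝ)) / p = D := by
      have : (0 : ℝ) < p := by exact_mod_cast hp
      push_cast
      field_simp
    rw [h5] at h4
    have h6 : (C.card : ℝ) ≤ base.card +
        ((range (p * D)).filter (fun s => p ∣ (r + (n - p * D)) + s)).card := by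
      exact_mod_cast h2.trans (Nat.add_le_add_left h3 _)
    linarith
  have hcard2 : (base.image (fun s => s + p * j)).card = base.card :=
    Finset.card_image_of_injOn hinj
  have e2 : ∑ s ∈ C, φ s = ∑ s ∈ C \ base.image (fun s => s + p * j), φ s +
      ∑ s ∈ base.image (fun s => s + p * j), φ s := (Finset.sum_sdiff hsub).symm
  have e3 : ∑ s ∈ C \ base.image (fun s => s + p * j), φ s ≤ B * (D + 1) := by
    calc ∑ s ∈ C \ base.image (fun s => s + p * j), φ s
        ≤ ∑ _s ∈ C \ base.image (fun s => s + p * j), B := by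
          refine Finset.sum_le_sum fun s hs => ?_
          have h1 := (Finset.mem_sdiff.1 hs).1
          rw [hC, Finset.mem_filter, Finset.mem_range] at h1
          exact (le_abs_self _).trans (hφ s h1.1)
      _ = ((C \ base.image (fun s => s + p * j)).card : ℝ) * B := by
          rw [Finset.sum_const, nsmul_eq_mul]
      _ ≤ (D + 1) * B := by
          refine mul_le_mul_of_nonneg_right ?_ hB
          rw [Finset.card_sdiff_of_subset hsub, hcard2, Nat.cast_sub]
          · linarith
          · rw [← hcard2]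
            exact Finset.card_le_card hsub
      _ = _ := by ring
  rw [e1, e2]
  linarith

variable {ω A : Type*} [DecidableEq A] [Fintype A]

theorem finite_step (Ω : Finset ω) (hΩ : Ω.Nonempty) (X : ω → ℕ → A) (n : ℕ)
    (hinj : ∀ v ∈ Ω, ∀ w ∈ Ω, (∀ s < n, X v s = X w s) → v = w)
    (r : ℕ) (H : Finset ℕ) (hH : H.Nonempty) (D : ℕ) (hD : ∀ j ∈ H, j ≤ D)
    (I : ℕ) (hI : 0 < I) (M : ℕ → ℕ) (hM0 : ∀ i, 1 ≤ M i) (hMm : ∀ i, M i ≤ M (i + 1))
    (Q : ℕ → Finset ℕ) (hQp : ∀ i < I, ∀ p ∈ Q i, p.Prime)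
    (hQM : ∀ i < I, ∀ p ∈ Q i, M i ≤ p ∧ p * D + M i ≤ M (i + 1))
    (W : ℝ) (hW1 : 1 ≤ W) (hW : ∀ i < I, W ≤ ∑ p ∈ Q i, (1 : ℝ) / p)
    (hn : ∀ i < I, 4 * ((Q i).card : ℝ) ^ 2 ≤ n)
    (K : ℝ) (hK : 0 < K) (c ε : ℝ) (hε : 0 < ε) (hc : ε ≤ c)
    (hlog : (c - ε / 4) * n ≤ Real.log Ω.card)
    (hIK : K * Real.log (Fintype.card A) ≤ ε / 4 * I)
    (hWB : (1 + K) * Real.log (Fintype.card A) * Real.sqrt (2 / W) ≤ ε / 4)
    (hnbig : ∀ i < I, ∀ p ∈ Q i,
      4 * p * ((D + 1) * ((1 + K) * Real.log (Fintype.card A)) + c +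
        H.card * (n / p ^ 2 + 1) * ((1 + K) * Real.log (Fintype.card A))) ≤ ε * n)
    (hnD : ∀ i < I, ∀ p ∈ Q i, p * D ≤ n) :
    ∃ i < I, ∃ p ∈ Q i, ∃ s, p ∣ r + s ∧ (∀ j ∈ H, s + p * j < n) ∧
      (∀ j ∈ H, ¬ p ^ 2 ∣ r + (s + p * j)) ∧
      (H.card : ℝ) * (c - ε) ≤
        ∑ j ∈ H, (en Ω X (insert (s + p * j) (range (s + 1 - M i))) -
          en Ω X (range (s + 1 - M i))) -
        K * (∑ j ∈ H, (en Ω X (insert (s + p * j) (range (s + 1 - M i))) -
          en Ω X (range (s + 1 - M i))) -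
          (en Ω X (H.image (fun j => s + p * j) ∪ range (s + 1 - M i)) -
            en Ω X (range (s + 1 - M i)))) := by
  set a : ℝ := Real.log (Fintype.card A) with ha
  have ha0 : 0 ≤ a := Real.log_natCast_nonneg _
  have hIpos : (0 : ℝ) < I := by exact_mod_cast hI
  have hn0 : (0 : ℝ) ≤ n := Nat.cast_nonneg _
  -- the scale
  obtain ⟨i, hi, hΔ⟩ : ∃ i < I, ∑ s ∈ range n, (cg Ω X (M (i + 1)) s - cg Ω X (M i) s) ≤
      n * a / I := by
    by_contra hcon
    push Not at hcon
    have h1 : ∑ i ∈ range I, (n * a / I : ℝ) <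
        ∑ i ∈ range I, ∑ s ∈ range n, (cg Ω X (M (i + 1)) s - cg Ω X (M i) s) :=
      Finset.sum_lt_sum_of_nonempty ⟨0, Finset.mem_range.2 hI⟩
        fun i hi => hcon i (Finset.mem_range.1 hi)
    rw [Finset.sum_const, nsmul_eq_mul, Finset.card_range, Finset.sum_comm] at h1
    have h2 : ∑ s ∈ range n, ∑ i ∈ range I, (cg Ω X (M (i + 1)) s - cg Ω X (M i) s) ≤
        ∑ _s ∈ range n, a := by
      refine Finset.sum_le_sum fun s _ => ?_
      rw [Finset.sum_range_sub (fun i => cg Ω X (M i) s)]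
      have h3 := cg_le Ω X (M I) s
      have h4 := cg_nonneg Ω X (M 0) s
      linarith
    rw [Finset.sum_const, nsmul_eq_mul, Finset.card_range] at h2
    have h3 : (I : ℝ) * (n * a / I) = n * a := by field_simp
    linarith
  set φ : ℕ → ℝ := fun s => cg Ω X 1 s - K * (cg Ω X (M (i + 1)) s - cg Ω X (M i) s) with hφ
  set B : ℝ := (1 + K) * a with hBdef
  have hB0 : 0 ≤ B := by positivity
  have hφB : ∀ s < n, |φ s| ≤ B := by
    intro s _
    have h1 := cg_nonneg Ω X 1 s
    have h2 := cg_le Ω X 1 s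
    have h3 := cg_nonneg Ω X (M i) s
    have h4 := cg_le Ω X (M (i + 1)) s
    have h5 := cg_mono Ω X (hMm i) s
    have h6 : K * (cg Ω X (M (i + 1)) s - cg Ω X (M i) s) ≤ K * a :=
      mul_le_mul_of_nonneg_left (by linarith) hK.le
    have h7 : 0 ≤ K * (cg Ω X (M (i + 1)) s - cg Ω X (M i) s) :=
      mul_nonneg hK.le (by linarith)
    rw [abs_le]
    simp only [hφ, hBdef]
    constructor
    · nlinarith
    · nlinarith
  -- the average of `φ`
  have hφsum : (c - ε / 2) * n ≤ ∑ s ∈ range n, φ s := by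
    simp only [hφ]
    rw [Finset.sum_sub_distrib, ← Finset.mul_sum, sum_cg_one,
      en_full Ω hΩ X (range n) (fun v hv w hw h => hinj v hv w hw fun s hs =>
        h s (Finset.mem_range.2 hs))]
    have h1 : K * ∑ s ∈ range n, (cg Ω X (M (i + 1)) s - cg Ω X (M i) s) ≤ K * (n * a / I) :=
      mul_le_mul_of_nonneg_left hΔ hK.le
    have h2 : K * (n * a / I) ≤ ε / 4 * n := by
      have : K * (n * a / I) = (K * a) * (n / I) := by ring
      rw [this]
      calc K * a * (n / I) ≤ (ε / 4 * I) * (n / I) :=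
            mul_le_mul_of_nonneg_right hIK (by positivity)
        _ = ε / 4 * n := by field_simp
    linarith
  -- the prime
  set W' : ℝ := ∑ p ∈ Q i, (1 : ℝ) / p with hW'
  have hWW' : W ≤ W' := hW i hi
  obtain ⟨p, hpQ, hp⟩ := choose_prime (Q i) (hQp i hi) r n φ B hφB hB0 W' hW'
    (hW1.trans hWW') (hn i hi)
  have hpp := hQp i hi p hpQ
  have hp0 : (0 : ℝ) < p := by exact_mod_cast hpp.pos
  have hsq : B * n * Real.sqrt (2 / W') ≤ ε / 4 * n := by
    have h1 : Real.sqrt (2 / W') ≤ Real.sqrt (2 / W) := by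
      refine Real.sqrt_le_sqrt ?_
      exact div_le_div_of_nonneg_left (by norm_num) (by linarith) hWW'
    calc B * n * Real.sqrt (2 / W') ≤ B * n * Real.sqrt (2 / W) :=
          mul_le_mul_of_nonneg_left h1 (by positivity)
      _ = (B * Real.sqrt (2 / W)) * n := by ring
      _ ≤ ε / 4 * n := mul_le_mul_of_nonneg_right hWB hn0
  have hCp : (c - 3 * ε / 4) * n / p ≤ ∑ s ∈ (range n).filter (fun s => p ∣ r + s), φ s := by
    refine le_trans ?_ hp
    refine div_le_div_of_nonneg_right ?_ hp0.le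
    linarith
  -- the base point
  set base := (range (n - p * D)).filter (fun s => p ∣ r + s) with hbase
  have hpD := hnD i hi p hpQ
  have hk : (1 : ℝ) ≤ H.card := by exact_mod_cast hH.card_pos
  obtain ⟨s, hs, hs2, hsφ⟩ : ∃ s ∈ base, (∀ j ∈ H, ¬ p ^ 2 ∣ r + (s + p * j)) ∧
      (H.card : ℝ) * (c - ε) ≤ ∑ j ∈ H, φ (s + p * j) := by
    by_contra hcon
    push Not at hcon
    set bad := base.filter (fun s => ∃ j ∈ H, p ^ 2 ∣ r + (s + p * j)) with hbad
    have hlt : ∀ s ∈ base, ∀ j ∈ H, s + p * j < n := by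
      intro s hs j hj
      rw [hbase, Finset.mem_filter, Finset.mem_range] at hs
      have : p * j ≤ p * D := Nat.mul_le_mul_left _ (hD j hj)
      omega
    have h1 : ∑ s ∈ base, ∑ j ∈ H, φ (s + p * j) ≤
        ∑ s ∈ base, ((H.card : ℝ) * (c - ε) + if s ∈ bad then (H.card : ℝ) * B else 0) := by
      refine Finset.sum_le_sum fun s hs => ?_
      by_cases hsb : s ∈ bad
      · rw [if_pos hsb]
        have h2 : ∑ j ∈ H, φ (s + p * j) ≤ ∑ _j ∈ H, B :=
          Finset.sum_le_sum fun j hj => (le_abs_self _).trans (hφB _ (hlt s hs j hj))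
        rw [Finset.sum_const, nsmul_eq_mul] at h2
        have h3 : 0 ≤ (H.card : ℝ) * (c - ε) := mul_nonneg (by linarith) (by linarith)
        linarith
      · rw [if_neg hsb, add_zero]
        refine (hcon s hs fun j hj hdvd => hsb ?_).le
        rw [hbad, Finset.mem_filter]
        exact ⟨hs, j, hj, hdvd⟩
    rw [Finset.sum_add_distrib, Finset.sum_const, nsmul_eq_mul, ← Finset.sum_filter,
      Finset.sum_const, nsmul_eq_mul, Finset.sum_comm] at h1
    have hbadle : ((base.filter (fun s => s ∈ bad)).card : ℝ) ≤ H.card * (n / p ^ 2 + 1) := by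
      have h2 : base.filter (fun s => s ∈ bad) ⊆
          H.biUnion fun j => (range n).filter fun s => p ^ 2 ∣ (r + p * j) + s := by
        intro s hs
        obtain ⟨hs1, hs2⟩ := Finset.mem_filter.1 hs
        obtain ⟨_, j, hj, hdvd⟩ := Finset.mem_filter.1 hs2
        rw [Finset.mem_biUnion]
        refine ⟨j, hj, ?_⟩
        rw [Finset.mem_filter, Finset.mem_range]
        have h3 := hlt s hs1 j hj
        refine ⟨by omega, ?_⟩
        have h4 : r + p * j + s = r + (s + p * j) := by ring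
        rw [h4]
        exact hdvd
      have h3 := (Finset.card_le_card h2).trans Finset.card_biUnion_le
      have h4 : ((base.filter (fun s => s ∈ bad)).card : ℝ) ≤
          ∑ j ∈ H, (((range n).filter fun s => p ^ 2 ∣ (r + p * j) + s).card : ℝ) := by
        exact_mod_cast h3
      refine h4.trans ?_
      have h5 : ∀ j ∈ H, (((range n).filter fun s => p ^ 2 ∣ (r + p * j) + s).card : ℝ) ≤
          n / p ^ 2 + 1 := by
        intro j _
        have := (count_dvd (p ^ 2) (r + p * j) n (pow_pos hpp.pos 2)).1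
        push_cast at this
        exact this
      refine (Finset.sum_le_sum h5).trans ?_
      rw [Finset.sum_const, nsmul_eq_mul]
    have h2 : ∑ j ∈ H, ((c - 3 * ε / 4) * n / p - B * (D + 1)) ≤
        ∑ j ∈ H, ∑ s ∈ base, φ (s + p * j) := by
      refine Finset.sum_le_sum fun j hj => ?_
      have h3 := shift_sum p r n D j hpp.pos (hD j hj) hpD φ B hφB hB0
      linarith
    rw [Finset.sum_const, nsmul_eq_mul] at h2
    have h3 : (base.card : ℝ) ≤ n / p + 1 := by
      have h4 := (count_dvd p r (n - p * D) hpp.pos).1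
      have h5 : ((n - p * D : ℕ) : ℝ) / p ≤ n / p := by
        refine div_le_div_of_nonneg_right ?_ hp0.le
        exact_mod_cast Nat.sub_le _ _
      linarith
    have h4 : (base.card : ℝ) * ((H.card : ℝ) * (c - ε)) ≤
        (n / p + 1) * ((H.card : ℝ) * (c - ε)) :=
      mul_le_mul_of_nonneg_right h3 (mul_nonneg (by linarith) (by linarith))
    have h4' : ((base.filter (fun s => s ∈ bad)).card : ℝ) * ((H.card : ℝ) * B) ≤
        (H.card * (n / p ^ 2 + 1)) * ((H.card : ℝ) * B) :=
      mul_le_mul_of_nonneg_right hbadle (mul_nonneg (by linarith) hB0)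
    have h5 : (D + 1) * B + c + H.card * (n / p ^ 2 + 1) * B ≤ ε / 4 * (n / p) := by
      have h6 := hnbig i hi p hpQ
      have h7 : ε / 4 * (n / p) = (ε * n) / (4 * p) := by field_simp
      rw [h7, le_div_iff₀ (by positivity)]
      linarith
    have h6 : (c - 3 * ε / 4) * n / p = (c - ε) * (n / p) + ε / 4 * (n / p) := by ring
    have h7 : (H.card : ℝ) * ((c - 3 * ε / 4) * n / p - B * (D + 1)) ≤
        (H.card : ℝ) * ((n / p + 1) * (c - ε) + H.card * (n / p ^ 2 + 1) * B) := by
      calc _ ≤ _ := h2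
        _ ≤ _ := h1
        _ ≤ _ := add_le_add h4 h4'
        _ = _ := by ring
    have h8 := le_of_mul_le_mul_left h7 (by linarith)
    rw [h6] at h8
    nlinarith
  rw [hbase, Finset.mem_filter, Finset.mem_range] at hs
  refine ⟨i, hi, p, hpQ, s, hs.2, ?_, hs2, ?_⟩
  · intro j hj
    have : p * j ≤ p * D := Nat.mul_le_mul_left _ (hD j hj)
    omega
  · have hQMi := hQM i hi p hpQ
    have hch := chain_lower Ω X (M i) p s hQMi.1 H
    have hb : ∀ j ∈ H, cg Ω X (M i) (s + p * j) ≤
        en Ω X (insert (s + p * j) (range (s + 1 - M i))) - en Ω X (range (s + 1 - M i)) ∧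
      en Ω X (insert (s + p * j) (range (s + 1 - M i))) - en Ω X (range (s + 1 - M i)) ≤
        cg Ω X (M (i + 1)) (s + p * j) := by
      intro j hj
      refine single_bounds Ω X (M i) (M (i + 1)) p s j ?_
      have : p * j ≤ p * D := Nat.mul_le_mul_left _ (hD j hj)
      omega
    have h1 : ∑ j ∈ H, cg Ω X 1 (s + p * j) ≤
        ∑ j ∈ H, (en Ω X (insert (s + p * j) (range (s + 1 - M i))) -
          en Ω X (range (s + 1 - M i))) :=
      Finset.sum_le_sum fun j hj => (cg_mono Ω X (hM0 i) _).trans (hb j hj).1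
    have h2 : ∑ j ∈ H, (en Ω X (insert (s + p * j) (range (s + 1 - M i))) -
          en Ω X (range (s + 1 - M i))) ≤ ∑ j ∈ H, cg Ω X (M (i + 1)) (s + p * j) :=
      Finset.sum_le_sum fun j hj => (hb j hj).2
    have h3 : ∑ j ∈ H, φ (s + p * j) = ∑ j ∈ H, cg Ω X 1 (s + p * j) -
        K * (∑ j ∈ H, cg Ω X (M (i + 1)) (s + p * j) - ∑ j ∈ H, cg Ω X (M i) (s + p * j)) := by
      simp only [hφ]
      rw [Finset.sum_sub_distrib, ← Finset.mul_sum, Finset.sum_sub_distrib]
    have h4 : K * (∑ j ∈ H, (en Ω X (insert (s + p * j) (range (s + 1 - M i))) -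
          en Ω X (range (s + 1 - M i))) -
          (en Ω X (H.image (fun j => s + p * j) ∪ range (s + 1 - M i)) -
            en Ω X (range (s + 1 - M i)))) ≤
        K * (∑ j ∈ H, cg Ω X (M (i + 1)) (s + p * j) - ∑ j ∈ H, cg Ω X (M i) (s + p * j)) :=
      mul_le_mul_of_nonneg_left (by linarith) hK.le
    linarith

end Pool.Agent.H615.EG
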