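import Mathlib

set_option autoImplicit false

/-! # Words and patterns of a sequence -/

namespace Pool.Agent.H615.EG

open Finset Filter Topology

/-- the Liouville function with values in the units `{1, -1}` of `ℤ` -/
def lam (n : ℕ) : ℤˣ := (-1) ^ (ArithmeticFunction.cardFactors n)

/-- the places `m` at which the word `w` occurs as `f (m + 1), ..., f (m + n)` -/
def occ {A : Type*} (f : ℕ → A) (n : ℕ) (w : Fin n → A) : Set ℕ :=
  {m : ℕ | ∀ j : Fin n, f (m + (j : ℕ) + 1) = w j}

/-- the places `m` at which the pattern `u` occurs on `m + H` -/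
def occH {A : Type*} (f : ℕ → A) (H : Finset ℕ) (u : ℕ → A) : Set ℕ :=
  {m : ℕ | ∀ h ∈ H, f (m + h) = u h}

/-- A notion of negligible sets of positive integers: a proper ideal of sets which is invariant
under the maps `m ↦ (m + a) / p`. -/
structure Negligible (J : Set ℕ → Prop) : Prop where
  empty : J ∅
  mono : ∀ s t, J t → s ⊆ t → J s
  union : ∀ s t, J s → J t → J (s ∪ t)
  dil : ∀ p a : ℕ, 1 ≤ p → ∀ T, J T → J {m | ∃ m' ∈ T, m + a = p * m'}
  proper : ¬ J Set.univ

/-- the set `s` has density zero with respect to the weights `w` and the normalisation `D` -/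
def WNull (w D : ℕ → ℝ) (s : Set ℕ) : Prop :=
  Tendsto (fun N : ℕ => (∑ m ∈ Icc 1 N, s.indicator w m) / D N) atTop (𝓝 0)

/-- natural density zero -/
def NatNull (s : Set ℕ) : Prop := WNull (fun _ => 1) (fun N => N) s

/-- logarithmic density zero -/
def LogNull (s : Set ℕ) : Prop := WNull (fun m => 1 / (m : ℝ)) (fun N => Real.log N) s

/-- the number of words of length `n` which occur at a set of places which is not negligible -/
noncomputable def wordCount {A : Type*} (J : Set ℕ → Prop) (f : ℕ → A) (n : ℕ) : ℕ :=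
  Set.ncard {w : Fin n → A | ¬ J (occ f n w)}

/-- the number of words `f (m+1), ..., f (m+n)`, `m ≥ 1`, of length `n` -/
noncomputable def blockComplexity {A : Type*} (f : ℕ → A) (n : ℕ) : ℕ :=
  Set.ncard {w : Fin n → A | ∃ m : ℕ, 1 ≤ m ∧ ∀ j : Fin n, f (m + (j : ℕ) + 1) = w j}

/-- `K ⊆ H` is a set of free coordinates: for some signs `v` and all signs `ε`, the pattern on `H`
which is `ε` on `K` and `v` on the rest of `H` is not negligible -/
def Free (J : Set ℕ → Prop) (f : ℕ → ℤˣ) (H K : Finset ℕ) : Prop :=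
  K ⊆ H ∧ ∃ v : ℕ → ℤˣ, ∀ ε : ℕ → ℤˣ, ¬ J {m | ∀ h ∈ H, f (m + h) = if h ∈ K then ε h else v h}

open Classical in
/-- the largest number of free coordinates in `H` -/
noncomputable def freeDim (J : Set ℕ → Prop) (f : ℕ → ℤˣ) (H : Finset ℕ) : ℕ :=
  (H.powerset.filter fun K => Free J f H K).sup Finset.card

/-- the infimum of the densities of free coordinates -/
noncomputable def freeDensity (J : Set ℕ → Prop) (f : ℕ → ℤˣ) : ℝ :=
  ⨅ H : {H : Finset ℕ // H.Nonempty}, (freeDim J f H.1 : ℝ) / H.1.card

end Pool.Agent.H615.EG
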