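import Mathlib
import Pool.Agent.H615.EG.D
import Pool.Agent.H615.EG.Defs

set_option autoImplicit false

/-! # The box theorem -/

namespace Pool.Agent.H615.EG

open Finset Filter

theorem ev_le (x y : ℝ) (hy : 0 < y) : ∀ᶠ n : ℕ in atTop, x ≤ y * n :=
  (tendsto_natCast_atTop_atTop.const_mul_atTop hy).eventually_ge_atTop x

/-- finite sets of large elements of a set with divergent sum of reciprocals -/
theorem exists_block (P : Set ℕ) (hP : ¬ Summable (P.indicator fun p : ℕ => (1 : ℝ) / p))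
    (W : ℝ) (M : ℕ) : ∃ Q : Finset ℕ, (∀ p ∈ Q, p ∈ P ∧ M ≤ p) ∧ W ≤ ∑ p ∈ Q, (1 : ℝ) / p := by
  classical
  by_contra hcon
  push Not at hcon
  apply hP
  have h0 : ∀ n, 0 ≤ P.indicator (fun p : ℕ => (1 : ℝ) / p) n := fun n =>
    Set.indicator_nonneg (fun p _ => by positivity) n
  refine summable_of_sum_le (c := W + ∑ p ∈ range M, (1 : ℝ) / p) h0 fun u => ?_
  have h1 : ∑ x ∈ u, P.indicator (fun p : ℕ => (1 : ℝ) / p) x =
      ∑ x ∈ u.filter (fun x => x ∈ P), (1 : ℝ) / x := by
    rw [Finset.sum_filter]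
    rfl
  rw [h1, ← Finset.sum_filter_add_sum_filter_not (u.filter (fun x => x ∈ P)) (fun x => M ≤ x)]
  refine add_le_add ?_ ?_
  · refine (hcon _ ?_).le
    intro p hp
    rw [Finset.mem_filter, Finset.mem_filter] at hp
    exact ⟨hp.1.2, hp.2⟩
  · refine Finset.sum_le_sum_of_subset_of_nonneg ?_ fun _ _ _ => by positivity
    intro p hp
    rw [Finset.mem_filter] at hp
    rw [Finset.mem_range]
    exact not_le.1 hp.2

variable {A : Type*} [DecidableEq A] [Fintype A]

theorem union_range (I : Set ℕ → Prop) (hempty : I ∅) (hunion : ∀ s t, I s → I t → I (s ∪ t))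
    (L : ℕ) (s : ℕ → Set ℕ) (h : ∀ r < L, I (s r)) : I {m | ∃ r < L, m ∈ s r} := by
  induction L with
  | zero =>
    have : {m : ℕ | ∃ r < 0, m ∈ s r} = ∅ := by
      ext m
      simp
    rw [this]
    exact hempty
  | succ L ih =>
    have : {m : ℕ | ∃ r < L + 1, m ∈ s r} = {m : ℕ | ∃ r < L, m ∈ s r} ∪ s L := by
      ext m
      simp only [Set.mem_ofPred_eq, Set.mem_union]
      constructor
      · rintro ⟨r, hr, hm⟩
        rcases Nat.lt_succ_iff_lt_or_eq.1 hr with h1 | rfl
        · exact Or.inl ⟨r, h1, hm⟩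
        · exact Or.inr hm
      · rintro (⟨r, hr, hm⟩ | hm)
        · exact ⟨r, by omega, hm⟩
        · exact ⟨L, by omega, hm⟩
    rw [this]
    exact hunion _ _ (ih fun r hr => h r (by omega)) (h L (by omega))

theorem exists_box (f : ℕ → A) (P : Set ℕ) (hprime : ∀ p ∈ P, p.Prime)
    (hP : ¬ Summable (P.indicator fun p : ℕ => (1 : ℝ) / p)) (π : ℕ → Equiv.Perm A)
    (hf : ∀ p ∈ P, ∀ n, ¬ p ∣ n → f (p * n) = π p (f n)) (c : ℝ) (hc : 0 < c)
    (J : Set ℕ → Prop)
    (hinf : ∀ L : ℕ, ∃ I : Set ℕ → Prop, I ∅ ∧ (∀ s t, I t → s ⊆ t → I s) ∧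
      (∀ s t, I s → I t → I (s ∪ t)) ∧
      (∀ p a : ℕ, 1 ≤ p → p ≤ L → ∀ T, J T → I {m | ∃ m' ∈ T, m + a = p * m'}) ∧
      ∃ᶠ n : ℕ in atTop, Real.exp (c * n) / 2 ≤
        ((Set.ncard {w : Fin n → A | ¬ I (occ f n w)} : ℕ) : ℝ))
    (H : Finset ℕ) (hH : H.Nonempty) (ε' : ℝ) (hε' : 0 < ε') :
    ∃ S : H → Finset A, c * H.card - ε' ≤ ∑ j, Real.log (S j).card ∧ (∀ j, (S j).Nonempty) ∧
      ∀ u : ℕ → A, (∀ j : H, u j ∈ S j) → ¬ J (occH f H u) := by
  classical
  have hAne : Nonempty A := ⟨f 0⟩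
  set q : ℝ := ((Fintype.card A : ℕ) : ℝ) with hq
  have hq1 : 1 ≤ q := by
    have : 1 ≤ Fintype.card A := Fintype.card_pos
    rw [hq]
    exact_mod_cast this
  set a : ℝ := Real.log (Fintype.card A) with ha
  have ha0 : 0 ≤ a := Real.log_natCast_nonneg _
  set k : ℝ := (H.card : ℝ) with hk
  have hk1 : 1 ≤ k := by
    have : 1 ≤ H.card := hH.card_pos
    rw [hk]
    exact_mod_cast this
  -- parameters
  set η : ℝ := min (1 / (2 * q)) ((ε' / (6 * k * q)) ^ 2) with hηdef
  have hη0 : 0 < η := lt_min (by positivity) (by positivity)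
  have hη1' : η ≤ 1 / (2 * q) := min_le_left _ _
  have hηq : η * q < 1 := by
    calc η * q ≤ 1 / (2 * q) * q := mul_le_mul_of_nonneg_right hη1' (by linarith)
      _ = 1 / 2 := by field_simp
      _ < 1 := by norm_num
  have hη1 : η ≤ 1 := by nlinarith
  have hηsqrt : Real.sqrt η ≤ ε' / (6 * k * q) := by
    rw [← Real.sqrt_sq (show (0 : ℝ) ≤ ε' / (6 * k * q) by positivity)]
    exact Real.sqrt_le_sqrt (min_le_right _ _)
  have hηerr : k * (3 * q * Real.sqrt η) ≤ ε' / 2 := by
    calc k * (3 * q * Real.sqrt η) ≤ k * (3 * q * (ε' / (6 * k * q))) := by gcongr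
      _ = ε' / 2 := by field_simp; norm_num
  set K : ℝ := (k * a + 1) / η ^ H.card with hKdef
  have hK0 : 0 < K := by positivity
  have hKη : k * a < K * η ^ H.card := by
    rw [hKdef, div_mul_cancel₀ _ (by positivity)]
    linarith
  set ε : ℝ := min c (ε' / (2 * k)) with hεdef
  have hε0 : 0 < ε := lt_min hc (by positivity)
  have hεc : ε ≤ c := min_le_left _ _
  have hεk : k * ε ≤ ε' / 2 := by
    calc k * ε ≤ k * (ε' / (2 * k)) := by gcongr; exact min_le_right _ _
      _ = ε' / 2 := by field_simp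
  set B : ℝ := (1 + K) * a with hB
  have hB0 : 0 ≤ B := by positivity
  obtain ⟨I, hI⟩ := exists_nat_ge (4 * (K * a) / ε + 1)
  have hI0 : 0 < I := by
    have : (0 : ℝ) < I := lt_of_lt_of_le (by positivity) hI
    exact_mod_cast this
  have hIK : K * a ≤ ε / 4 * I := by
    have h1 : 4 * (K * a) / ε ≤ I := by linarith
    rw [div_le_iff₀ hε0] at h1
    linarith
  set W : ℝ := max 1 (2 * ((4 * B + 1) / ε) ^ 2) with hWdef
  have hW1 : 1 ≤ W := le_max_left _ _
  have hW0 : 0 < W := by linarith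
  have hWB : B * Real.sqrt (2 / W) ≤ ε / 4 := by
    have h1 : 2 / W ≤ (ε / (4 * B + 1)) ^ 2 := by
      rw [div_le_iff₀ hW0]
      calc (2 : ℝ) = (ε / (4 * B + 1)) ^ 2 * (2 * ((4 * B + 1) / ε) ^ 2) := by
            field_simp
        _ ≤ (ε / (4 * B + 1)) ^ 2 * W :=
            mul_le_mul_of_nonneg_left (le_max_right _ _) (by positivity)
    have h2 : Real.sqrt (2 / W) ≤ ε / (4 * B + 1) := by
      rw [← Real.sqrt_sq (show (0 : ℝ) ≤ ε / (4 * B + 1) by positivity)]
      exact Real.sqrt_le_sqrt h1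
    calc B * Real.sqrt (2 / W) ≤ B * (ε / (4 * B + 1)) := mul_le_mul_of_nonneg_left h2 hB0
      _ ≤ ε / 4 := by
          rw [mul_div_assoc', div_le_div_iff₀ (by positivity) (by norm_num)]
          nlinarith
  set D : ℕ := H.sup id with hD
  have hDle : ∀ j ∈ H, j ≤ D := fun j hj => Finset.le_sup (f := id) hj
  -- scales
  choose Q0 hQ0 using fun M : ℕ => exists_block P hP W M
  obtain ⟨M00, hM00⟩ := exists_nat_ge (8 * k * B / ε)
  let M : ℕ → ℕ := fun i => Nat.rec (M00 + 1) (fun _ Mi => Mi + (Q0 Mi).sup id * D) i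
  have hMs : ∀ i, M (i + 1) = M i + (Q0 (M i)).sup id * D := fun i => rfl
  have hMmono : ∀ i, M i ≤ M (i + 1) := fun i => by rw [hMs]; exact Nat.le_add_right _ _
  have hMlow : ∀ i, M00 + 1 ≤ M i := by
    intro i
    induction i with
    | zero => exact le_rfl
    | succ i ih => exact ih.trans (hMmono i)
  let Q : ℕ → Finset ℕ := fun i => Q0 (M i)
  have hQprime : ∀ i, ∀ p ∈ Q i, p.Prime := fun i p hp => hprime p ((hQ0 (M i)).1 p hp).1
  have hQP : ∀ i, ∀ p ∈ Q i, p ∈ P := fun i p hp => ((hQ0 (M i)).1 p hp).1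
  have hQM : ∀ i, ∀ p ∈ Q i, M i ≤ p ∧ p * D + M i ≤ M (i + 1) := by
    intro i p hp
    refine ⟨((hQ0 (M i)).1 p hp).2, ?_⟩
    rw [hMs, add_comm]
    refine Nat.add_le_add_left ?_ _
    exact Nat.mul_le_mul_right _ (Finset.le_sup (f := id) hp)
  -- the modulus
  set L : ℕ := ∏ i ∈ range I, ∏ p ∈ Q i, p ^ 2 with hL
  have hLpos : 0 < L := Finset.prod_pos fun i _ => Finset.prod_pos fun p hp =>
    pow_pos (hQprime i p hp).pos 2
  have hLdvd : ∀ i < I, ∀ p ∈ Q i, p ^ 2 ∣ L := by
    intro i hi p hp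
    exact (Finset.dvd_prod_of_mem (fun p => p ^ 2) hp).trans
      (Finset.dvd_prod_of_mem (fun i => ∏ p ∈ Q i, p ^ 2) (Finset.mem_range.2 hi))
  have hLR : (0 : ℝ) < L := by exact_mod_cast hLpos
  obtain ⟨I₀, hJ0, hJ1, hJ2, hJ3, hinf⟩ := hinf L
  -- large n
  have hev1 : ∀ᶠ n : ℕ in atTop, ∀ i ∈ range I, 4 * ((Q i).card : ℝ) ^ 2 ≤ n ∧
      ∀ p ∈ Q i, (4 * p * ((D + 1) * B + c + k * B) ≤ ε / 2 * n ∧ (p * D : ℝ) ≤ n) := by
    rw [Filter.eventually_all_finset]
    intro i _
    refine Filter.Eventually.and ?_ ?_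
    · filter_upwards [ev_le (4 * ((Q i).card : ℝ) ^ 2) 1 one_pos] with n hn
      linarith
    · rw [Filter.eventually_all_finset]
      intro p _
      filter_upwards [ev_le (4 * p * ((D + 1) * B + c + k * B)) (ε / 2) (by positivity),
        ev_le (p * D : ℝ) 1 one_pos] with n hn1 hn2
      exact ⟨hn1, by linarith⟩
  have hev2 : ∀ᶠ n : ℕ in atTop, Real.log (2 * L) ≤ ε / 4 * n := ev_le _ _ (by positivity)
  obtain ⟨n, hncard, hn1, hn2⟩ := (hinf.and_eventually (hev1.and hev2)).exists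
  -- the words
  have hfin : {w : Fin n → A | ¬ I₀ (occ f n w)}.Finite := Set.toFinite _
  set T : Finset (Fin n → A) := hfin.toFinset with hT
  have hTcard : ((Set.ncard {w : Fin n → A | ¬ I₀ (occ f n w)} : ℕ) : ℝ) = T.card := by
    rw [Set.ncard_eq_toFinset_card _ hfin]
  rw [hTcard] at hncard
  -- each word is not negligible in some residue class
  have hmT : ∀ w ∈ T, ∃ r < L, ¬ I₀ (occ f n w ∩ {m | (m + 1) % L = r}) := by
    intro w hw
    rw [hT, Set.Finite.mem_toFinset] at hw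
    by_contra hcon
    push Not at hcon
    refine hw (hJ1 _ _ (union_range I₀ hJ0 hJ2 L _ hcon) fun m hm => ?_)
    exact ⟨(m + 1) % L, Nat.mod_lt _ hLpos, hm, rfl⟩
  choose! rf hrf1 hrf2 using hmT
  -- pigeonhole modulo L
  have hTbig : Real.exp (c * n) / 2 ≤ T.card := hncard
  obtain ⟨r, hr, hrcard⟩ : ∃ r ∈ range L, (T.card : ℝ) / L ≤
      ((T.filter fun w => rf w = r).card : ℝ) := by
    by_contra hcon
    push Not at hcon
    have h1 := Finset.sum_lt_sum_of_nonempty ⟨0, Finset.mem_range.2 hLpos⟩ hcon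
    rw [Finset.sum_const, nsmul_eq_mul, Finset.card_range] at h1
    have h2 := Finset.card_eq_sum_card_fiberwise (f := rf)
      (s := T) (t := range L) (fun w hw => by
        simp only [Finset.coe_range, Set.mem_Iio]
        exact hrf1 w hw)
    have h3 : (T.card : ℝ) = ∑ r ∈ range L, ((T.filter fun w => rf w = r).card : ℝ) := by
      exact_mod_cast h2
    rw [← h3] at h1
    have h4 : (L : ℝ) * (T.card / L) = T.card := by field_simp
    linarith
  set Ω := T.filter fun w => rf w = r with hΩdef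
  have hΩbig : Real.exp (c * n) / (2 * L) ≤ Ω.card := by
    calc Real.exp (c * n) / (2 * L) = (Real.exp (c * n) / 2) / L := by field_simp
      _ ≤ T.card / L := div_le_div_of_nonneg_right hTbig hLR.le
      _ ≤ _ := hrcard
  have hΩpos : (0 : ℝ) < Ω.card := lt_of_lt_of_le (by positivity) hΩbig
  have hΩne : Ω.Nonempty := by
    rw [← Finset.card_pos]
    exact_mod_cast hΩpos
  have hlog : (c - ε / 4) * n ≤ Real.log Ω.card := by
    have h1 : Real.log (Real.exp (c * n) / (2 * L)) ≤ Real.log Ω.card :=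
      Real.log_le_log (by positivity) hΩbig
    rw [Real.log_div (by positivity) (by positivity), Real.log_exp] at h1
    linarith
  let X : (Fin n → A) → ℕ → A := fun w s => if hs : s < n then w ⟨s, hs⟩ else f 0
  have hn0 : (0 : ℝ) ≤ n := Nat.cast_nonneg _
  obtain ⟨i, hi, p, hp, s, hps, hsn, hps2, hbig⟩ := finite_step Ω hΩne X n (by
      intro v hv w hw h
      funext j
      have h1 := h j j.2
      simp only [X, dif_pos j.2] at h1
      exact h1) r H hH D hDle I hI0 M (fun i => le_trans (Nat.le_add_left _ _) (hMlow i))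
      hMmono Q (fun i _ => hQprime i) (fun i _ => hQM i) W hW1 (fun i _ => (hQ0 (M i)).2)
      (fun i hi => (hn1 i (Finset.mem_range.2 hi)).1) K hK0 c ε hε0 hεc hlog hIK hWB (by
        intro i hi p hp
        have h1 := ((hn1 i (Finset.mem_range.2 hi)).2 p hp).1
        have hpp := hQprime i p hp
        have hp0 : (0 : ℝ) < p := by exact_mod_cast hpp.pos
        have h2 : 8 * k * B / ε ≤ p := by
          have h3 : (M00 : ℝ) + 1 ≤ p := by
            exact_mod_cast (hMlow i).trans (hQM i p hp).1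
          linarith
        rw [div_le_iff₀ hε0] at h2
        have h3 : 4 * p * (k * (n / p ^ 2) * B) ≤ ε / 2 * n := by
          have h4 : 4 * p * (k * (n / p ^ 2) * B) = (8 * k * B) * (n / (2 * p)) := by
            field_simp
            ring
          rw [h4]
          calc 8 * k * B * (n / (2 * p)) ≤ (p * ε) * (n / (2 * p)) :=
                mul_le_mul_of_nonneg_right h2 (by positivity)
            _ = ε / 2 * n := by field_simp
        have h5 : 4 * p * ((D + 1) * ((1 + K) * a) + c +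
            k * (n / p ^ 2 + 1) * ((1 + K) * a)) =
            4 * p * ((D + 1) * B + c + k * B) + 4 * p * (k * (n / p ^ 2) * B) := by
          rw [hB]; ring
        rw [h5]
        linarith) (by
        intro i hi p hp
        have h1 := ((hn1 i (Finset.mem_range.2 hi)).2 p hp).2
        exact_mod_cast h1)
  -- the box
  have hpp := hQprime i p hp
  have hpP := hQP i p hp
  let σ : H → ℕ := fun j => s + p * j
  have himg : (univ : Finset H).image σ = H.image (fun j => s + p * j) := by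
    ext x
    simp only [Finset.mem_image, Finset.mem_univ, true_and, σ, Subtype.exists, exists_prop]
  have hcardH : Fintype.card H = H.card := Fintype.card_coe H
  obtain ⟨S, hS1, hS2, hS3⟩ := atom_box Ω hΩne X (range (s + 1 - M i)) σ K η (k * (c - ε))
    hK0 hη0 hη1 hηq (mul_nonneg (by linarith) (by linarith)) (by rw [hcardH]; exact hKη) (by
      rw [himg]
      have e : ∑ j : H, (en Ω X (insert (σ j) (range (s + 1 - M i))) -
          en Ω X (range (s + 1 - M i))) = ∑ j ∈ H,
          (en Ω X (insert (s + p * j) (range (s + 1 - M i))) - en Ω X (range (s + 1 - M i))) :=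
        Finset.sum_coe_sort H (fun j => en Ω X (insert (s + p * j) (range (s + 1 - M i))) -
          en Ω X (range (s + 1 - M i)))
      rw [e]
      exact hbig)
  refine ⟨fun j => (S j).map (π p).symm.toEmbedding, ?_, ?_, ?_⟩
  · simp only [Finset.card_map]
    rw [hcardH] at hS2
    refine le_trans ?_ hS2
    have : k * (c - ε) = c * k - k * ε := by ring
    rw [this]
    linarith
  · exact fun j => (hS1 j).map
  · intro u hu hJu
    obtain ⟨w, hw, hwu⟩ := hS3 (fun j => π p (u j)) (fun j => by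
      obtain ⟨x, hx, he⟩ := Finset.mem_map.1 (hu j)
      rw [← he]
      simpa using hx)
    have hwT := (Finset.mem_filter.1 hw).1
    have hwr := (Finset.mem_filter.1 hw).2
    have hp2L := hLdvd i hi p hp
    have hpL : p ≤ L := (Nat.le_of_dvd hLpos ((Dvd.intro_left _ (pow_succ p 1).symm).trans hp2L))
    refine hrf2 w hwT (hJ1 _ _ (hJ3 p (s + 1) hpp.pos hpL _ hJu) ?_)
    rintro m ⟨hm, hmr⟩
    simp only [Set.mem_ofPred_eq] at hmr
    rw [hwr] at hmr
    have hmod : (m + 1) ≡ r [MOD p ^ 2] := by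
      have h1 : (m + 1) ≡ r [MOD L] := by
        unfold Nat.ModEq
        rw [hmr, Nat.mod_eq_of_lt (Finset.mem_range.1 hr)]
      exact h1.of_dvd hp2L
    have hdvd : p ∣ m + s + 1 := by
      have h1 : m + s + 1 ≡ r + s [MOD p] := by
        have h2 := (hmod.of_dvd (Dvd.intro_left _ (pow_succ p 1).symm)).add_right s
        have h3 : m + s + 1 = m + 1 + s := by ring
        rw [h3]
        exact h2
      exact (Nat.modEq_zero_iff_dvd.1 (h1.trans (Nat.modEq_zero_iff_dvd.2 hps)))
    obtain ⟨m', hm'⟩ := hdvd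
    refine ⟨m', fun h hh => ?_, by rw [← hm']; ring⟩
    have h1 : m + (s + p * h) + 1 = p * (m' + h) := by
      rw [mul_add, ← hm']
      ring
    have h2 : ¬ p ∣ m' + h := by
      rintro ⟨t, ht⟩
      apply hps2 h hh
      have h3 : m + (s + p * h) + 1 = p ^ 2 * t := by
        rw [h1, ht]; ring
      have h4 : r + (s + p * h) ≡ m + 1 + (s + p * h) [MOD p ^ 2] :=
        hmod.symm.add_right _
      have h5 : m + 1 + (s + p * h) = p ^ 2 * t := by rw [← h3]; ring
      rw [h5] at h4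
      exact Nat.modEq_zero_iff_dvd.1 (h4.trans (Nat.modEq_zero_iff_dvd.2 (Dvd.intro _ rfl)))
    have h3 : X w (s + p * h) = π p (u h) := hwu ⟨h, hh⟩
    simp only [X, dif_pos (hsn h hh)] at h3
    have h4 := hm ⟨s + p * h, hsn h hh⟩
    rw [← h4, h1, hf p hpP _ h2] at h3
    exact (π p).injective h3

end Pool.Agent.H615.EG
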