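import Mathlib
import Pool.Agent.H615.EG.E

set_option autoImplicit false

/-! # The box theorem, the entropy formula and the gap theorem, for ideals of negligible sets -/

namespace Pool.Agent.H615.EG

open Finset Filter Topology

variable {A : Type*} [DecidableEq A] [Fintype A]

omit [DecidableEq A] [Fintype A] in
/-- from almost optimal boxes to optimal boxes -/
theorem upgrade [Finite A] (f : ℕ → A) (H : Finset ℕ) (c : ℝ) (J : ℕ → Set ℕ → Prop)
    (hJ : ∀ N N' s, N ≤ N' → J N s → J N' s)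
    (key0 : ∀ N : ℕ, ∀ ε' : ℝ, 0 < ε' → ∃ S : H → Finset A,
      c * H.card - ε' ≤ ∑ j, Real.log (S j).card ∧ (∀ j, (S j).Nonempty) ∧
      ∀ u : ℕ → A, (∀ j : H, u j ∈ S j) → ¬ J N (occH f H u)) :
    ∃ S : ℕ → Finset A, Real.exp (c * H.card) ≤ ∏ h ∈ H, ((S h).card : ℝ) ∧
      ∀ u : ℕ → A, (∀ h ∈ H, u h ∈ S h) → ∀ N, ¬ J N (occH f H u) := by
  classical
  have hfA : Fintype A := Fintype.ofFinite A
  -- the integer threshold
  set t : ℝ := Real.exp (c * H.card) with ht
  have ht0 : 0 < t := Real.exp_pos _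
  obtain ⟨q0, hq0, hq0'⟩ : ∃ q0 : ℕ, (q0 : ℝ) < t ∧ t ≤ q0 + 1 := by
    have h1 : 0 < ⌈t⌉₊ := Nat.ceil_pos.2 ht0
    refine ⟨⌈t⌉₊ - 1, ?_, ?_⟩
    · have h2 := Nat.ceil_lt_add_one ht0.le
      rw [Nat.cast_sub h1]
      push_cast
      linarith
    · rw [Nat.cast_sub h1]
      push_cast
      have := Nat.le_ceil t
      linarith
  set ε' : ℝ := (t - q0) / (2 * t) with hε'
  have hε'0 : 0 < ε' := div_pos (by linarith) (by positivity)
  have hexp : (q0 : ℝ) < Real.exp (c * H.card - ε') := by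
    have h1 : 1 - ε' ≤ Real.exp (-ε') := by
      have := Real.add_one_le_exp (-ε')
      linarith
    have h2 : Real.exp (c * H.card - ε') = t * Real.exp (-ε') := by
      rw [ht, ← Real.exp_add]
      congr 1
    rw [h2]
    have h3 : t * (1 - ε') ≤ t * Real.exp (-ε') := mul_le_mul_of_nonneg_left h1 ht0.le
    have h4 : t * (1 - ε') = t - (t - q0) / 2 := by
      rw [hε']
      field_simp
    rw [h4] at h3
    linarith
  -- good families
  by_contra hcon
  push Not at hcon
  have key : ∀ S : H → Finset A, Real.exp (c * H.card) ≤ ∏ j, ((S j).card : ℝ) →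
      ∃ N : ℕ, ∃ u : ℕ → A, (∀ j : H, u j ∈ S j) ∧ J N (occH f H u) := by
    intro S hS
    have h1 : ∏ h ∈ H, (((fun n => if hn : n ∈ H then S ⟨n, hn⟩ else ∅ : ℕ → Finset A) h).card : ℝ) =
        ∏ j, ((S j).card : ℝ) := by
      rw [← Finset.prod_coe_sort H]
      refine Finset.prod_congr rfl fun j _ => ?_
      beta_reduce
      rw [dif_pos j.2]
    obtain ⟨u, hu1, N, hN⟩ := hcon (fun n => if hn : n ∈ H then S ⟨n, hn⟩ else ∅) (by
      rw [h1]; exact hS)
    refine ⟨N, u, fun j => ?_, hN⟩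
    have := hu1 j j.2
    beta_reduce at this
    rw [dif_pos j.2] at this
    exact this
  have hAne : Nonempty A := ⟨f 0⟩
  choose! N u hu1 hu2 using key
  obtain ⟨S, hS1, hS2, hS3⟩ := key0 (univ.sup N) ε' hε'0
  have hprod : Real.exp (c * H.card) ≤ ∏ j, ((S j).card : ℝ) := by
    have h1 : Real.exp (c * H.card - ε') ≤ ∏ j, ((S j).card : ℝ) := by
      calc Real.exp (c * H.card - ε') ≤ Real.exp (∑ j, Real.log (S j).card) :=
            Real.exp_le_exp.2 hS1
        _ = ∏ j, ((S j).card : ℝ) := by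
            rw [Real.exp_sum]
            refine Finset.prod_congr rfl fun j _ => ?_
            rw [Real.exp_log]
            exact_mod_cast (hS2 j).card_pos
    have h2 : (q0 : ℝ) < ((∏ j, (S j).card : ℕ) : ℝ) := by
      push_cast
      exact lt_of_lt_of_le hexp h1
    have h3 : q0 + 1 ≤ ∏ j, (S j).card := by exact_mod_cast h2
    have h4 : ((q0 + 1 : ℕ) : ℝ) ≤ ((∏ j, (S j).card : ℕ) : ℝ) := by exact_mod_cast h3
    push_cast at h4
    linarith
  exact hS3 (u S) (hu1 S hprod) (hJ _ _ _ (Finset.le_sup (Finset.mem_univ S)) (hu2 S hprod))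

omit [DecidableEq A] in
theorem blockComplexity_le (f : ℕ → A) (n : ℕ) :
    blockComplexity f n ≤ wordCount (fun s => s = ∅) f n := by
  refine Set.ncard_le_ncard ?_ (Set.toFinite _)
  rintro w ⟨m, _, hm⟩ h0
  have h1 : m ∈ occ f n w := hm
  rw [h0] at h1
  exact h1

omit [DecidableEq A] in
theorem le_blockComplexity (f : ℕ → A) (n : ℕ) :
    wordCount Set.Finite f n ≤ blockComplexity f n := by
  refine Set.ncard_le_ncard ?_ (Set.toFinite _)
  intro w hw
  have h1 : (occ f n w).Infinite := hw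
  obtain ⟨m, hm, hm1⟩ := h1.exists_gt 0
  exact ⟨m, hm1, hm⟩

/-- the box theorem for words which are not negligible -/
theorem box_ideal (f : ℕ → A) (P : Set ℕ) (hprime : ∀ p ∈ P, p.Prime)
    (hP : ¬ Summable (P.indicator fun p : ℕ => (1 : ℝ) / p)) (π : ℕ → Equiv.Perm A)
    (hf : ∀ p ∈ P, ∀ n, ¬ p ∣ n → f (p * n) = π p (f n)) (c : ℝ) (hc : 0 < c)
    (J : Set ℕ → Prop) (hJ : Negligible J)
    (hinf : ∃ᶠ n : ℕ in atTop, Real.exp (c * n) ≤ (wordCount J f n : ℝ))
    (H : Finset ℕ) :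
    ∃ S : ℕ → Finset A, Real.exp (c * H.card) ≤ ∏ h ∈ H, ((S h).card : ℝ) ∧
      ∀ u : ℕ → A, (∀ h ∈ H, u h ∈ S h) → ¬ J (occH f H u) := by
  rcases H.eq_empty_or_nonempty with rfl | hH
  · refine ⟨fun _ => ∅, by simp, fun u _ hu => hJ.proper (hJ.mono _ _ hu fun m _ h hh => ?_)⟩
    exact absurd hh (Finset.notMem_empty h)
  obtain ⟨S, hS1, hS2⟩ := upgrade f H c (fun _ => J) (fun _ _ _ _ h => h) (fun _ ε' hε' =>
    exists_box f P hprime hP π hf c hc J (fun L => ⟨J, hJ.empty, fun s t h1 h2 => hJ.mono s t h1 h2,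
      hJ.union, fun p a hp _ T hT => hJ.dil p a hp T hT, hinf.mono fun n hn => by
        have := Real.exp_pos (c * n)
        have h2 : Real.exp (c * n) / 2 ≤ Real.exp (c * n) := by linarith
        exact h2.trans hn⟩) H hH ε' hε')
  exact ⟨S, hS1, fun u hu => hS2 u hu 0⟩

/-- the box theorem for all words -/
theorem box_all (f : ℕ → A) (P : Set ℕ) (hprime : ∀ p ∈ P, p.Prime)
    (hP : ¬ Summable (P.indicator fun p : ℕ => (1 : ℝ) / p)) (π : ℕ → Equiv.Perm A)
    (hf : ∀ p ∈ P, ∀ n, ¬ p ∣ n → f (p * n) = π p (f n)) (c : ℝ) (hc : 0 < c)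
    (hinf : ∃ᶠ n : ℕ in atTop, Real.exp (c * n) ≤ (wordCount (fun s => s = ∅) f n : ℝ))
    (H : Finset ℕ) :
    ∃ S : ℕ → Finset A, Real.exp (c * H.card) ≤ ∏ h ∈ H, ((S h).card : ℝ) ∧
      ∀ u : ℕ → A, (∀ h ∈ H, u h ∈ S h) → (occH f H u).Infinite := by
  classical
  rcases H.eq_empty_or_nonempty with rfl | hH
  · refine ⟨fun _ => ∅, by simp, fun u _ => ?_⟩
    have : occH f ∅ u = Set.univ := by
      ext m
      simp only [occH, Set.mem_ofPred_eq, Set.mem_univ, iff_true]
      exact fun h hh => absurd hh (Finset.notMem_empty h)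
    rw [this]
    exact Set.infinite_univ
  have key0 : ∀ N : ℕ, ∀ ε' : ℝ, 0 < ε' → ∃ S : H → Finset A,
      c * H.card - ε' ≤ ∑ j, Real.log (S j).card ∧ (∀ j, (S j).Nonempty) ∧
      ∀ u : ℕ → A, (∀ j : H, u j ∈ S j) → ¬ (occH f H u ⊆ Set.Iio N) := by
    intro N ε' hε'
    refine exists_box f P hprime hP π hf c hc (fun s => s ⊆ Set.Iio N) (fun L =>
      ⟨fun s => s ⊆ Set.Iio (N * L), Set.empty_subset _, fun s t h1 h2 => h2.trans h1,
        fun s t h1 h2 => Set.union_subset h1 h2, fun p a hp hpL T hT => ?_, ?_⟩) H hH ε' hε'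
    · rintro m ⟨m', hm', he⟩
      have h1 : m' < N := hT hm'
      rw [Set.mem_Iio]
      have h2 : p * m' < p * N := Nat.mul_lt_mul_of_pos_left h1 hp
      have h3 : p * N ≤ N * L := by rw [Nat.mul_comm N L]; exact Nat.mul_le_mul_right _ hpL
      omega
    · have hev : ∀ᶠ n : ℕ in atTop, Real.log (2 * (N * L : ℕ) + 1) ≤ c * n := ev_le _ _ hc
      refine (hinf.and_eventually hev).mono ?_
      rintro n ⟨hn1, hn2⟩
      have hfin1 : {w : Fin n → A | ¬ occ f n w = ∅}.Finite := Set.toFinite _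
      have hfin2 : {w : Fin n → A | ¬ occ f n w ⊆ Set.Iio (N * L)}.Finite := Set.toFinite _
      have hexp1 : (2 * (N * L : ℕ) + 1 : ℝ) ≤ Real.exp (c * n) := by
        rw [← Real.log_le_iff_le_exp (by positivity)]
        exact hn2
      -- the words which occur only at small places
      have h1 : {w : Fin n → A | ¬ occ f n w = ∅} ⊆ {w : Fin n → A | ¬ occ f n w ⊆ Set.Iio (N * L)} ∪
          ((fun m : ℕ => fun j : Fin n => f (m + (j : ℕ) + 1)) '' (Set.Iio (N * L))) := by
        intro w hw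
        by_cases h : occ f n w ⊆ Set.Iio (N * L)
        · right
          simp only [Set.mem_ofPred_eq] at hw
          obtain ⟨m, hm⟩ := Set.nonempty_iff_ne_empty.2 hw
          exact ⟨m, h hm, funext hm⟩
        · left
          exact h
      have h2 : wordCount (fun s => s = ∅) f n ≤
          Set.ncard {w : Fin n → A | ¬ occ f n w ⊆ Set.Iio (N * L)} + N * L := by
        refine (Set.ncard_le_ncard h1 (Set.toFinite _)).trans ((Set.ncard_union_le _ _).trans ?_)
        refine Nat.add_le_add_left ?_ _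
        refine (Set.ncard_image_le (Set.finite_Iio _)).trans ?_
        rw [← Finset.coe_Iio, Set.ncard_coe_finset]
        simp
      have h3 : (wordCount (fun s => s = ∅) f n : ℝ) ≤
          (Set.ncard {w : Fin n → A | ¬ occ f n w ⊆ Set.Iio (N * L)} : ℕ) + (N * L : ℕ) := by
        exact_mod_cast h2
      push_cast at hexp1 h3
      linarith
  obtain ⟨S, hS1, hS2⟩ := upgrade f H c (fun N s => s ⊆ Set.Iio N)
    (fun N N' s h1 h2 => h2.trans (Set.Iio_subset_Iio h1)) key0
  refine ⟨S, hS1, fun u hu => ?_⟩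
  intro hfin
  obtain ⟨N, hN⟩ := hfin.bddAbove
  refine hS2 u hu (N + 1) fun m hm => ?_
  rw [Set.mem_Iio]
  exact Nat.lt_succ_of_le (hN hm)

/-! ### Sequences of signs -/

theorem le_freeDim (J : Set ℕ → Prop) (f : ℕ → ℤˣ) {H K : Finset ℕ} (h : Free J f H K) :
    K.card ≤ freeDim J f H := by
  classical
  unfold freeDim
  refine Finset.le_sup (f := Finset.card) ?_
  rw [Finset.mem_filter, Finset.mem_powerset]
  exact ⟨h.1, h⟩

theorem units_card_cases (S : Finset ℤˣ) (hS : S.Nonempty) :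
    S = univ ∨ ∃ a, S = {a} := by
  revert S
  decide

theorem free_of_box (J : Set ℕ → Prop) (f : ℕ → ℤˣ) (H : Finset ℕ) (c : ℝ) (S : ℕ → Finset ℤˣ)
    (hS : (2 : ℝ) ^ (c * H.card) ≤ ∏ h ∈ H, ((S h).card : ℝ))
    (hocc : ∀ u : ℕ → ℤˣ, (∀ h ∈ H, u h ∈ S h) → ¬ J (occH f H u)) :
    ∃ K : Finset ℕ, Free J f H K ∧ c * H.card ≤ K.card := by
  classical
  have hne : ∀ h ∈ H, (S h).Nonempty := by
    intro h hh
    by_contra hcon
    rw [Finset.not_nonempty_iff_eq_empty] at hcon
    have : ∏ h ∈ H, ((S h).card : ℝ) = 0 := Finset.prod_eq_zero hh (by rw [hcon]; simp)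
    rw [this] at hS
    have := Real.rpow_pos_of_pos (show (0 : ℝ) < 2 by norm_num) (c * H.card)
    linarith
  set K := H.filter fun h => S h = univ with hK
  have hprod : ∏ h ∈ H, ((S h).card : ℝ) = 2 ^ K.card := by
    have h1 : ∀ h ∈ H, ((S h).card : ℝ) = if S h = univ then 2 else 1 := by
      intro h hh
      rcases units_card_cases (S h) (hne h hh) with h2 | ⟨a, h2⟩
      · rw [if_pos h2, h2, Finset.card_univ]
        norm_num [Fintype.card_units_int]
      · have h3 : S h ≠ univ := by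
          rw [h2]
          intro h4
          have h5 := congrArg Finset.card h4
          rw [Finset.card_singleton, Finset.card_univ, Fintype.card_units_int] at h5
          omega
        rw [if_neg h3, h2, Finset.card_singleton, Nat.cast_one]
    rw [Finset.prod_congr rfl h1, Finset.prod_ite, Finset.prod_const, Finset.prod_const_one,
      mul_one]
  choose! v hv using hne
  refine ⟨K, ⟨Finset.filter_subset _ _, v, fun ε hneg => ?_⟩, ?_⟩
  · refine hocc (fun h => if h ∈ K then ε h else v h) (fun h hh => ?_) hneg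
    by_cases hhK : h ∈ K
    · rw [if_pos hhK, (Finset.mem_filter.1 hhK).2]
      exact Finset.mem_univ _
    · rw [if_neg hhK]
      exact hv h hh
  · rw [hprod] at hS
    have h1 : (2 : ℝ) ^ (c * H.card) ≤ (2 : ℝ) ^ ((K.card : ℕ) : ℝ) := by
      rw [Real.rpow_natCast]
      exact hS
    exact (Real.rpow_le_rpow_left_iff (by norm_num)).1 h1

theorem freeDim_bound (J J' : Set ℕ → Prop) (f : ℕ → ℤˣ)
    (hbox : ∀ c : ℝ, 0 < c → (∃ᶠ n : ℕ in atTop, Real.exp (c * n) ≤ (wordCount J f n : ℝ)) →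
      ∀ H : Finset ℕ, ∃ S : ℕ → Finset ℤˣ, Real.exp (c * H.card) ≤ ∏ h ∈ H, ((S h).card : ℝ) ∧
        ∀ u : ℕ → ℤˣ, (∀ h ∈ H, u h ∈ S h) → ¬ J' (occH f H u))
    (H : Finset ℕ) (hH : H.Nonempty) (δ : ℝ) (hδ : 0 < δ) :
    ∀ᶠ n : ℕ in atTop,
      (wordCount J f n : ℝ) ≤ (2 : ℝ) ^ (((freeDim J' f H : ℝ) / H.card + δ) * n) := by
  by_contra hcon
  rw [Filter.not_eventually] at hcon
  have hk : (0 : ℝ) < H.card := by exact_mod_cast hH.card_pos
  set c : ℝ := (freeDim J' f H : ℝ) / H.card + δ with hc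
  have hc0 : 0 < c := by positivity
  have hlog2 : 0 < Real.log 2 := Real.log_pos (by norm_num)
  obtain ⟨S, hS1, hS2⟩ := hbox (c * Real.log 2) (by positivity)
    (hcon.mono fun n hn => by
      rw [not_le] at hn
      refine le_of_eq_of_le ?_ hn.le
      rw [Real.rpow_def_of_pos (by norm_num)]
      congr 1
      ring) H
  obtain ⟨K, hK, hKc⟩ := free_of_box J' f H c S (by
    refine le_of_eq_of_le ?_ hS1
    rw [Real.rpow_def_of_pos (by norm_num)]
    congr 1
    ring) hS2
  have h1 : (K.card : ℝ) ≤ freeDim J' f H := by exact_mod_cast le_freeDim J' f hK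
  have h2 : c * H.card = freeDim J' f H + δ * H.card := by
    rw [hc]
    field_simp
  have h3 : 0 < δ * H.card := by positivity
  linarith

end Pool.Agent.H615.EG
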