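import Mathlib
import Pool.Agent.H615.EG.F

set_option autoImplicit false

/-! # The gap is optimal for sequences with a divergent set of symmetric primes -/

namespace Pool.Agent.H615.EG

open Finset Filter

/-- the state `(q_i, k q_0 ... q_i)` -/
noncomputable def st (k : ℕ) : ℕ → ℕ × ℕ
  | 0 => (Classical.choose (Nat.exists_infinite_primes (k + 2)),
      k * Classical.choose (Nat.exists_infinite_primes (k + 2)))
  | i + 1 =>
      (Classical.choose (Nat.exists_infinite_primes (2 * (st k i).2 + i + 2 + 2 * (st k i).1)),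
        (st k i).2 *
          Classical.choose (Nat.exists_infinite_primes (2 * (st k i).2 + i + 2 + 2 * (st k i).1)))

noncomputable def qq (k i : ℕ) : ℕ := (st k i).1
noncomputable def PP (k i : ℕ) : ℕ := (st k i).2

theorem qq_prime (k i : ℕ) : (qq k i).Prime := by
  unfold qq
  cases i with
  | zero => rw [st]; exact (Classical.choose_spec (Nat.exists_infinite_primes _)).2
  | succ i => rw [st]; exact (Classical.choose_spec (Nat.exists_infinite_primes _)).2

theorem qq_zero (k : ℕ) : k + 2 ≤ qq k 0 := by
  unfold qq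
  rw [st]
  exact (Classical.choose_spec (Nat.exists_infinite_primes _)).1

theorem qq_succ (k i : ℕ) : 2 * PP k i + i + 2 + 2 * qq k i ≤ qq k (i + 1) := by
  unfold qq PP
  rw [st]
  exact (Classical.choose_spec (Nat.exists_infinite_primes _)).1

theorem PP_zero (k : ℕ) : PP k 0 = k * qq k 0 := by
  unfold PP qq
  rw [st]

theorem PP_succ (k i : ℕ) : PP k (i + 1) = PP k i * qq k (i + 1) := by
  unfold PP qq
  rw [st]

theorem PP_eq (k i : ℕ) : PP k i = k * ∏ j ∈ range (i + 1), qq k j := by
  induction i with
  | zero => rw [PP_zero]; simp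
  | succ i ih => rw [PP_succ, ih, Finset.prod_range_succ _ (i + 1)]; ring

theorem qq_strictMono (k : ℕ) : StrictMono (qq k) := strictMono_nat_of_lt_succ fun i => by
  have := qq_succ k i
  have h2 := (qq_prime k i).pos
  omega

theorem qq_gt (k i : ℕ) : k < qq k i ∧ i < qq k i := by
  constructor
  · have h1 := qq_zero k
    have h2 := (qq_strictMono k).monotone (Nat.zero_le i)
    omega
  · have h1 := (qq_strictMono k).le_apply (x := i)
    rcases Nat.lt_or_ge i (qq k i) with h | h
    · exact h
    · have h3 : qq k i = i := le_antisymm h h1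
      cases i with
      | zero => have := qq_zero k; omega
      | succ i => have := qq_succ k i; omega

theorem qq_pow (k i : ℕ) : 2 ^ i ≤ qq k i := by
  induction i with
  | zero => exact (qq_prime k 0).pos
  | succ i ih =>
    have := qq_succ k i
    rw [pow_succ]
    omega

open Classical in
/-- `1` on the multiples of `k` and on the numbers without prime factor among the `q_i`,
otherwise the parity of the largest index `i` with `q_i ∣ n` -/
noncomputable def sf (k n : ℕ) : ℤˣ :=
  if k ∣ n ∨ {i | qq k i ∣ n} = ∅ then 1 else (-1) ^ (sSup {i | qq k i ∣ n})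

theorem sf_mul (k p n : ℕ) (hp : p.Prime) (hpk : ¬ p ∣ k) (hpq : ∀ i, p ≠ qq k i) :
    sf k (p * n) = sf k n := by
  have h1 : {i | qq k i ∣ p * n} = {i | qq k i ∣ n} := by
    ext i
    simp only [Set.mem_ofPred_eq]
    constructor
    · intro h
      have hc : Nat.Coprime (qq k i) p :=
        (Nat.coprime_primes (qq_prime k i) hp).2 (hpq i).symm
      exact hc.dvd_of_dvd_mul_left h
    · exact fun h => Dvd.dvd.mul_left h p
  have h2 : k ∣ p * n ↔ k ∣ n := by
    constructor
    · intro h
      have hc : Nat.Coprime k p := ((hp.coprime_iff_not_dvd).2 hpk).symm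
      exact hc.dvd_of_dvd_mul_left h
    · exact fun h => Dvd.dvd.mul_left h p
  unfold sf
  rw [h1]
  simp only [h2]

theorem not_summable_sf (k : ℕ) (hk : 0 < k) :
    ¬ Summable ({p : ℕ | p.Prime ∧ ¬ p ∣ k ∧ ∀ i, p ≠ qq k i}.indicator
      fun p : ℕ => (1 : ℝ) / p) := by
  intro hs
  apply not_summable_one_div_on_primes
  have h1 : Summable ({p : ℕ | p ∣ k}.indicator fun p : ℕ => (1 : ℝ) / p) := by
    refine summable_of_ne_finset_zero (s := k.divisors) fun b hb => ?_
    refine Set.indicator_of_notMem ?_ _
    intro h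
    exact hb (Nat.mem_divisors.2 ⟨h, hk.ne'⟩)
  have h2 : Summable ((Set.range (qq k)).indicator fun p : ℕ => (1 : ℝ) / p) := by
    rw [← Function.Injective.summable_iff (qq_strictMono k).injective
      (fun x hx => Set.indicator_of_notMem hx _)]
    refine Summable.of_nonneg_of_le (fun i => ?_) (fun i => ?_)
      (summable_geometric_of_lt_one (show (0 : ℝ) ≤ 1 / 2 by norm_num) (by norm_num))
    · rw [Function.comp_apply, Set.indicator_of_mem (Set.mem_range_self i)]
      positivity
    · rw [Function.comp_apply, Set.indicator_of_mem (Set.mem_range_self i), one_div_pow]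
      refine one_div_le_one_div_of_le (by positivity) ?_
      exact_mod_cast qq_pow k i
  refine Summable.of_nonneg_of_le (fun p => Set.indicator_nonneg (fun p _ => by positivity) p)
    (fun p => ?_) ((hs.add h1).add h2)
  have e1 : 0 ≤ {p : ℕ | p.Prime ∧ ¬ p ∣ k ∧ ∀ i, p ≠ qq k i}.indicator
      (fun p : ℕ => (1 : ℝ) / p) p := Set.indicator_nonneg (fun p _ => by positivity) p
  have e2 : 0 ≤ {p : ℕ | p ∣ k}.indicator (fun p : ℕ => (1 : ℝ) / p) p :=
    Set.indicator_nonneg (fun p _ => by positivity) p
  have e3 : 0 ≤ (Set.range (qq k)).indicator (fun p : ℕ => (1 : ℝ) / p) p :=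
    Set.indicator_nonneg (fun p _ => by positivity) p
  by_cases hp : p.Prime
  · rw [Set.indicator_of_mem (show p ∈ {p | p.Prime} from hp)]
    by_cases hk1 : p ∣ k
    · rw [Set.indicator_of_mem (show p ∈ {p | p ∣ k} from hk1)]
      linarith
    · by_cases hq1 : ∀ i, p ≠ qq k i
      · rw [Set.indicator_of_mem (show p ∈ {p : ℕ | p.Prime ∧ ¬ p ∣ k ∧ ∀ i, p ≠ qq k i} from
          ⟨hp, hk1, hq1⟩)]
        linarith
      · push Not at hq1
        obtain ⟨i, hi⟩ := hq1
        rw [Set.indicator_of_mem (show p ∈ Set.range (qq k) from ⟨i, hi.symm⟩)]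
        linarith
  · rw [Set.indicator_of_notMem (show p ∉ {p | p.Prime} from hp)]
    linarith

/-- every pattern on the non-multiples of `k` occurs -/
theorem sf_pattern (k : ℕ) (hk : 0 < k) (n : ℕ) (w : ℕ → ℤˣ) :
    ∃ m, 1 ≤ m ∧ ∀ j < n, sf k (m + j + 1) = if k ∣ j + 1 then 1 else w j := by
  classical
  -- the index attached to the position `j`
  set ix : ℕ → ℕ := fun j => 2 * (n + 1 + j) + (if w j = 1 then 0 else 1) with hix
  have hix1 : ∀ j, 2 * (n + 1 + j) ≤ ix j ∧ ix j ≤ 2 * (n + 1 + j) + 1 := by
    intro j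
    simp only [hix]
    split_ifs <;> omega
  have hixinj : ∀ j j', ix j = ix j' → j = j' := by
    intro j j' h
    have h1 := hix1 j
    have h2 := hix1 j'
    omega
  have hixpar : ∀ j, (-1 : ℤˣ) ^ (ix j) = w j := by
    intro j
    simp only [hix]
    rcases Int.units_eq_one_or (w j) with h | h
    · rw [if_pos h, h, add_zero, pow_mul]; simp
    · rw [if_neg (by rw [h]; decide), h, pow_add, pow_mul]; simp
  set I : ℕ := 4 * n + 4 with hI
  have hixI : ∀ j < n, ix j ≤ I := by
    intro j hj
    have := hix1 j
    omega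
  -- residues
  let a : ℕ → ℕ := fun i => if h : ∃ j < n, ix j = i then (qq k i - 1) * (h.choose + 1) else 0
  have hcop : Set.Pairwise ((range (I + 1) : Finset ℕ) : Set ℕ)
      (Function.onFun Nat.Coprime (qq k)) := by
    intro x _ y _ hxy
    exact (Nat.coprime_primes (qq_prime k x) (qq_prime k y)).2
      fun h => hxy ((qq_strictMono k).injective h)
  obtain ⟨m0, hm0⟩ := Nat.chineseRemainderOfFinset a (qq k) (t := range (I + 1))
    (fun i _ => (qq_prime k i).ne_zero) hcop
  have hcopk : Nat.Coprime k (∏ i ∈ range (I + 1), qq k i) := by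
    refine Nat.Coprime.prod_right fun i _ => ?_
    refine Nat.Coprime.symm ((qq_prime k i).coprime_iff_not_dvd.2 fun h => ?_)
    have := Nat.le_of_dvd hk h
    have := (qq_gt k i).1
    omega
  obtain ⟨m1, hm1a, hm1b⟩ := Nat.chineseRemainder hcopk 0 m0
  have hPPpos : 0 < PP k I := by
    rw [PP_eq]
    exact Nat.mul_pos hk (Finset.prod_pos fun i _ => (qq_prime k i).pos)
  set m : ℕ := m1 % PP k I + PP k I with hm
  have hmlt : m < 2 * PP k I := by
    have := Nat.mod_lt m1 hPPpos
    omega
  have hmm1 : m ≡ m1 [MOD PP k I] := by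
    rw [hm]
    unfold Nat.ModEq
    simp
  have hmk : k ∣ m := by
    have h1 : m ≡ m1 [MOD k] := hmm1.of_dvd (by rw [PP_eq]; exact Dvd.intro _ rfl)
    exact (Nat.modEq_zero_iff_dvd.1 (h1.trans hm1a))
  have hma : ∀ i ≤ I, m ≡ a i [MOD qq k i] := by
    intro i hi
    have hdvd : qq k i ∣ ∏ i ∈ range (I + 1), qq k i :=
      Finset.dvd_prod_of_mem _ (Finset.mem_range.2 (by omega))
    have h1 : m ≡ m1 [MOD qq k i] := hmm1.of_dvd (by
      rw [PP_eq]
      exact hdvd.trans (Dvd.intro_left _ rfl))
    exact h1.trans ((hm1b.of_dvd hdvd).trans (hm0 i (Finset.mem_range.2 (by omega))))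
  refine ⟨m, by omega, fun j hj => ?_⟩
  have hkj : k ∣ m + j + 1 ↔ k ∣ j + 1 := by
    rw [add_assoc]
    exact Nat.dvd_add_right hmk
  by_cases hkd : k ∣ j + 1
  · rw [if_pos hkd]
    unfold sf
    rw [if_pos (Or.inl (hkj.2 hkd))]
  · rw [if_neg hkd]
    have hgreat : IsGreatest {i | qq k i ∣ m + j + 1} (ix j) := by
      constructor
      · -- the chosen prime divides
        have hex : ∃ j' < n, ix j' = ix j := ⟨j, hj, rfl⟩
        have ha : a (ix j) = (qq k (ix j) - 1) * (j + 1) := by
          have h1 : hex.choose = j := hixinj _ _ hex.choose_spec.2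
          simp only [a]
          rw [dif_pos hex, h1]
        have h1 := hma (ix j) (hixI j hj)
        rw [ha] at h1
        have h2 : m + (j + 1) ≡ (qq k (ix j) - 1) * (j + 1) + (j + 1) [MOD qq k (ix j)] :=
          h1.add_right _
        have h3 : (qq k (ix j) - 1) * (j + 1) + (j + 1) = qq k (ix j) * (j + 1) := by
          have := (qq_prime k (ix j)).pos
          obtain ⟨t, ht⟩ : ∃ t, qq k (ix j) = t + 1 := ⟨qq k (ix j) - 1, by omega⟩
          rw [ht, Nat.add_sub_cancel]
          ring
        rw [h3] at h2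
        exact Nat.modEq_zero_iff_dvd.1 (h2.trans (Nat.modEq_zero_iff_dvd.2 (Dvd.intro _ rfl)))
      · intro i hi
        simp only [Set.mem_ofPred_eq] at hi
        by_contra hlt
        rw [not_le] at hlt
        have h0 := hix1 j
        rcases Nat.lt_or_ge I i with hIi | hIi
        · -- too large
          have h1 : qq k (I + 1) ≤ qq k i := (qq_strictMono k).monotone hIi
          have h2 := qq_succ k I
          have h3 := Nat.le_of_dvd (Nat.succ_pos _) hi
          have h4 := (qq_prime k I).pos
          omega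
        · have h1 := hma i hIi
          have hqi : n < qq k i := by
            have := (qq_gt k i).2
            omega
          by_cases hex : ∃ j' < n, ix j' = i
          · have ha : a i = (qq k i - 1) * (hex.choose + 1) := by
              simp only [a]
              rw [dif_pos hex]
            rw [ha] at h1
            have hj' := hex.choose_spec
            set j' := hex.choose with hj'def
            have hne : j' ≠ j := by
              intro h
              rw [h] at hj'
              omega
            have h2 : m + (j' + 1) ≡ (qq k i - 1) * (j' + 1) + (j' + 1) [MOD qq k i] :=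
              h1.add_right _
            have h3 : (qq k i - 1) * (j' + 1) + (j' + 1) = qq k i * (j' + 1) := by
              have := (qq_prime k i).pos
              obtain ⟨t, ht⟩ : ∃ t, qq k i = t + 1 := ⟨qq k i - 1, by omega⟩
              rw [ht, Nat.add_sub_cancel]
              ring
            rw [h3] at h2
            have h4 : qq k i ∣ m + (j' + 1) :=
              Nat.modEq_zero_iff_dvd.1 (h2.trans (Nat.modEq_zero_iff_dvd.2 (Dvd.intro _ rfl)))
            rcases Nat.lt_or_gt_of_ne hne with hlt' | hlt'
            · have h5 : qq k i ∣ (m + j + 1) - (m + (j' + 1)) := Nat.dvd_sub hi h4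
              have h6 := Nat.le_of_dvd (by omega) h5
              omega
            · have h5 : qq k i ∣ (m + (j' + 1)) - (m + j + 1) := Nat.dvd_sub h4 hi
              have h6 := Nat.le_of_dvd (by omega) h5
              omega
          · have ha : a i = 0 := by
              simp only [a]
              rw [dif_neg hex]
            rw [ha] at h1
            have h2 : qq k i ∣ m := Nat.modEq_zero_iff_dvd.1 h1
            have h3 : qq k i ∣ j + 1 := by
              rw [add_assoc] at hi
              exact (Nat.dvd_add_right h2).1 hi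
            have h6 := Nat.le_of_dvd (by omega) h3
            omega
    unfold sf
    rw [if_neg, hgreat.csSup_eq, hixpar]
    rintro (h | h)
    · exact hkd (hkj.1 h)
    · have := hgreat.1
      rw [h] at this
      exact this

theorem card_nonmult (k : ℕ) (n : ℕ) :
    (1 - 1 / (k : ℝ)) * n ≤ (((range n).filter fun j => ¬ k ∣ j + 1).card : ℝ) := by
  have h1 := Finset.card_filter_add_card_filter_not (s := range n) (fun j => k ∣ j + 1)
  rw [Finset.card_range] at h1
  have h2 : ((range n).filter fun j => k ∣ j + 1).card = n / k := by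
    have h3 : (range n).filter (fun j => k ∣ j + 1) =
        ((Finset.Ioc 0 n).filter (fun x => k ∣ x)).image (fun x => x - 1) := by
      ext j
      simp only [Finset.mem_filter, Finset.mem_range, Finset.mem_image, Finset.mem_Ioc]
      constructor
      · rintro ⟨hj, hd⟩
        exact ⟨j + 1, ⟨⟨by omega, by omega⟩, hd⟩, by omega⟩
      · rintro ⟨x, ⟨⟨hx1, hx2⟩, hd⟩, rfl⟩
        have : x - 1 + 1 = x := by omega
        rw [this]
        exact ⟨by omega, hd⟩
    rw [h3, Finset.card_image_of_injOn, Nat.Ioc_filter_dvd_card_eq_div]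
    intro x hx y hy hxy
    have hx1 := (Finset.mem_Ioc.1 (Finset.mem_filter.1 (Finset.mem_coe.1 hx)).1)
    have hy1 := (Finset.mem_Ioc.1 (Finset.mem_filter.1 (Finset.mem_coe.1 hy)).1)
    simp only at hxy
    omega
  have h4 : ((n / k : ℕ) : ℝ) ≤ (n : ℝ) / k := Nat.cast_div_le
  have h5 : (((range n).filter fun j => ¬ k ∣ j + 1).card : ℝ) = n - (n / k : ℕ) := by
    rw [eq_sub_iff_add_eq, ← h2]
    have : ((range n).filter fun j => ¬ k ∣ j + 1).card +
        ((range n).filter fun j => k ∣ j + 1).card = n := by omega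
    exact_mod_cast this
  rw [h5]
  have h6 : (1 - 1 / (k : ℝ)) * n = n - n / k := by ring
  rw [h6]
  linarith

theorem sharp (k : ℕ) (hk : 0 < k) :
    ∃ (f : ℕ → ℤˣ) (P : Set ℕ), (∀ p ∈ P, p.Prime) ∧
      ¬ Summable (P.indicator fun p : ℕ => (1 : ℝ) / p) ∧
      (∀ p ∈ P, ∀ n, f (p * n) = f n) ∧
      (∀ n : ℕ, (2 : ℝ) ^ ((1 - 1 / (k : ℝ)) * n) ≤ blockComplexity f n) ∧
      ∀ m, ∃ j < k, f (m + j) = 1 := by
  classical
  refine ⟨sf k, {p : ℕ | p.Prime ∧ ¬ p ∣ k ∧ ∀ i, p ≠ qq k i}, fun p hp => hp.1,
    not_summable_sf k hk, fun p hp n => sf_mul k p n hp.1 hp.2.1 hp.2.2, fun n => ?_,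
    fun m => ?_⟩
  · set J := (range n).filter fun j => ¬ k ∣ j + 1 with hJ
    have hcard : Fintype.card (J → ℤˣ) = 2 ^ J.card := by
      rw [Fintype.card_fun, Fintype.card_units_int, Fintype.card_coe]
    have h1 : 2 ^ J.card ≤ blockComplexity (sf k) n := by
      rw [← hcard, ← Nat.card_eq_fintype_card, ← Set.ncard_univ]
      unfold blockComplexity
      refine Set.ncard_le_ncard_of_injOn
        (fun e : J → ℤˣ => fun j : Fin n => if hj : (j : ℕ) ∈ J then e ⟨j, hj⟩ else 1)
        (fun e _ => ?_) ?_ (Set.toFinite _)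
      · obtain ⟨m, hm1, hm⟩ := sf_pattern k hk n (fun x => if hx : x ∈ J then e ⟨x, hx⟩ else 1)
        refine ⟨m, hm1, fun j => ?_⟩
        rw [hm j j.2]
        by_cases hkj : k ∣ (j : ℕ) + 1
        · have : (j : ℕ) ∉ J := fun h => (Finset.mem_filter.1 h).2 hkj
          rw [if_pos hkj]
          beta_reduce
          rw [dif_neg this]
        · rw [if_neg hkj]
      · intro e _ e' _ he
        funext x
        have hx : (x : ℕ) < n := Finset.mem_range.1 (Finset.mem_filter.1 x.2).1
        have := congrFun he ⟨x, hx⟩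
        simp only [dif_pos x.2] at this
        exact this
    calc (2 : ℝ) ^ ((1 - 1 / (k : ℝ)) * n) ≤ (2 : ℝ) ^ ((J.card : ℕ) : ℝ) :=
          Real.rpow_le_rpow_of_exponent_le (by norm_num) (card_nonmult k n)
      _ = ((2 ^ J.card : ℕ) : ℝ) := by rw [Real.rpow_natCast]; push_cast; rfl
      _ ≤ _ := by exact_mod_cast h1
  · refine ⟨(k - m % k) % k, Nat.mod_lt _ hk, ?_⟩
    have h1 : k ∣ m + (k - m % k) % k := by
      rw [Nat.dvd_iff_mod_eq_zero, Nat.add_mod, Nat.mod_mod, ← Nat.add_mod]
      have h2 := Nat.mod_lt m hk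
      have h3 : m + (k - m % k) = k * (m / k) + k := by
        have := Nat.div_add_mod m k
        omega
      rw [h3]
      simp
    unfold sf
    rw [if_pos (Or.inl h1)]

end Pool.Agent.H615.EG
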