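import Mathlib
import Pool.Agent.H615.EG.F

set_option autoImplicit false

/-! # Ideals of negligible sets -/

namespace Pool.Agent.H615.EG

open Finset Filter Topology

theorem negligible_finite : Negligible Set.Finite where
  empty := Set.finite_empty
  mono := fun s t ht h => ht.subset h
  union := fun s t hs ht => hs.union ht
  dil := by
    intro p a hp T hT
    refine (hT.image fun m' => p * m' - a).subset ?_
    rintro m ⟨m', hm', he⟩
    exact ⟨m', hm', by simp only; omega⟩
  proper := Set.infinite_univ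

theorem negligible_empty : Negligible (fun s : Set ℕ => s = ∅) where
  empty := rfl
  mono := fun s t ht h => by rw [ht] at h; exact Set.subset_eq_empty h rfl
  union := fun s t hs ht => by rw [hs, ht, Set.union_empty]
  dil := by
    intro p a hp T hT
    rw [hT]
    ext m
    simp
  proper := Set.univ_nonempty.ne_empty

theorem negligible_W (w D : ℕ → ℝ) (hw0 : ∀ m, 0 ≤ w m) (hw1 : ∀ m, 1 ≤ m → w m ≤ 1)
    (hratio : ∀ a m m' : ℕ, 1 ≤ m → 1 ≤ m' → m' ≤ m + a → w m ≤ (1 + (a : ℝ)) * w m')
    (hD0 : ∀ N, 0 ≤ D N) (hD : Tendsto D atTop atTop) (hproper : ¬ WNull w D Set.univ) :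
    Negligible (WNull w D) where
  empty := by
    unfold WNull
    simp
  mono := by
    intro s t ht h
    unfold WNull at ht ⊢
    refine squeeze_zero (fun N => ?_) (fun N => ?_) ht
    · exact div_nonneg (Finset.sum_nonneg fun m _ => Set.indicator_nonneg (fun m _ => hw0 m) m)
        (hD0 N)
    refine div_le_div_of_nonneg_right ?_ (hD0 N)
    exact Finset.sum_le_sum fun m _ =>
      Set.indicator_le_indicator_of_subset h (fun m => hw0 m) m
  union := by
    intro s t hs ht
    unfold WNull at hs ht ⊢
    have h := hs.add ht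
    rw [add_zero] at h
    refine squeeze_zero (fun N => ?_) (fun N => ?_) h
    · exact div_nonneg (Finset.sum_nonneg fun m _ => Set.indicator_nonneg (fun m _ => hw0 m) m)
        (hD0 N)
    rw [← add_div, ← Finset.sum_add_distrib]
    refine div_le_div_of_nonneg_right ?_ (hD0 N)
    refine Finset.sum_le_sum fun m _ => ?_
    have h1 : 0 ≤ s.indicator w m := Set.indicator_nonneg (fun m _ => hw0 m) m
    have h2 : 0 ≤ t.indicator w m := Set.indicator_nonneg (fun m _ => hw0 m) m
    by_cases hms : m ∈ s
    · rw [Set.indicator_of_mem (Set.mem_union_left t hms), Set.indicator_of_mem hms]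
      linarith
    · by_cases hmt : m ∈ t
      · rw [Set.indicator_of_mem (Set.mem_union_right s hmt), Set.indicator_of_mem hmt]
        linarith
      · rw [Set.indicator_of_notMem (fun h => h.elim hms hmt)]
        linarith
  dil := by
    classical
    intro p a hp T hT
    unfold WNull at hT ⊢
    have h1 : Tendsto (fun N : ℕ => (a : ℝ) / D N) atTop (𝓝 0) := hD.const_div_atTop a
    have h := (hT.add h1).const_mul ((1 : ℝ) + a)
    rw [add_zero, mul_zero] at h
    refine squeeze_zero (fun N => ?_) (fun N => ?_) h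
    · exact div_nonneg (Finset.sum_nonneg fun m _ => Set.indicator_nonneg (fun m _ => hw0 m) m)
        (hD0 N)
    rw [← add_div, mul_div_assoc']
    refine div_le_div_of_nonneg_right ?_ (hD0 N)
    set U : Set ℕ := {m | ∃ m' ∈ T, m + a = p * m'} with hU
    have e0 : ∀ s : Set ℕ, ∀ B : Finset ℕ, ∑ m ∈ B, s.indicator w m =
        ∑ m ∈ B.filter (fun m => m ∈ s), w m := by
      intro s B
      rw [Finset.sum_filter]
      refine Finset.sum_congr rfl fun m _ => ?_
      by_cases hm : m ∈ s
      · rw [Set.indicator_of_mem hm, if_pos hm]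
      · rw [Set.indicator_of_notMem hm, if_neg hm]
    rw [e0, e0]
    have hmem : ∀ m ∈ (Icc 1 N).filter (fun m => m ∈ U), 1 ≤ m ∧ m ≤ N ∧
        (m + a) / p ∈ T ∧ 1 ≤ (m + a) / p ∧ (m + a) / p ≤ m + a ∧
        m + a = p * ((m + a) / p) := by
      intro m hm
      obtain ⟨hmI, m', hm', he⟩ := Finset.mem_filter.1 hm
      have hm1 := Finset.mem_Icc.1 hmI
      have e2 : (m + a) / p = m' := by rw [he]; exact Nat.mul_div_cancel_left _ hp
      rw [e2]
      refine ⟨hm1.1, hm1.2, hm', ?_, ?_, he⟩
      · rcases Nat.eq_zero_or_pos m' with h0 | h0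
        · rw [h0] at he; omega
        · exact h0
      · rw [he]; exact Nat.le_mul_of_pos_left _ hp
    have e1 : ∑ m ∈ (Icc 1 N).filter (fun m => m ∈ U), w m ≤
        ∑ m ∈ (Icc 1 N).filter (fun m => m ∈ U), (1 + (a : ℝ)) * w ((m + a) / p) :=
      Finset.sum_le_sum fun m hm => by
        obtain ⟨h1, _, _, h4, h5, _⟩ := hmem m hm
        exact hratio a m _ h1 h4 h5
    refine e1.trans ?_
    rw [← Finset.mul_sum]
    refine mul_le_mul_of_nonneg_left ?_ (by positivity)
    have e3 : ∑ m ∈ (Icc 1 N).filter (fun m => m ∈ U), w ((m + a) / p) ≤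
        ∑ m' ∈ (Icc 1 (N + a)).filter (fun m => m ∈ T), w m' := by
      rw [← Finset.sum_image (f := w) (g := fun m => (m + a) / p)]
      · refine Finset.sum_le_sum_of_subset_of_nonneg ?_ fun _ _ _ => hw0 _
        intro x hx
        obtain ⟨m, hm, rfl⟩ := Finset.mem_image.1 hx
        obtain ⟨h1, h2, h3, h4, h5, _⟩ := hmem m hm
        rw [Finset.mem_filter, Finset.mem_Icc]
        exact ⟨⟨h4, by omega⟩, h3⟩
      · intro m hm k hk hmk
        have h1 := (hmem m hm).2.2.2.2.2
        have h2 := (hmem k hk).2.2.2.2.2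
        simp only at hmk
        rw [hmk] at h1
        omega
    refine e3.trans ?_
    have e4 : (Icc 1 (N + a)).filter (fun m => m ∈ T) ⊆
        (Icc 1 N).filter (fun m => m ∈ T) ∪ Finset.Ioc N (N + a) := by
      intro m hm
      rw [Finset.mem_filter, Finset.mem_Icc] at hm
      rw [Finset.mem_union, Finset.mem_filter, Finset.mem_Icc, Finset.mem_Ioc]
      by_cases h2 : m ≤ N
      · exact Or.inl ⟨⟨hm.1.1, h2⟩, hm.2⟩
      · exact Or.inr ⟨not_le.1 h2, hm.1.2⟩
    refine (Finset.sum_le_sum_of_subset_of_nonneg e4 fun _ _ _ => hw0 _).trans ?_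
    have e5 : ∑ m ∈ Finset.Ioc N (N + a), w m ≤ a := by
      calc ∑ m ∈ Finset.Ioc N (N + a), w m ≤ ∑ _m ∈ Finset.Ioc N (N + a), (1 : ℝ) := by
            refine Finset.sum_le_sum fun m hm => hw1 m ?_
            have h1 := (Finset.mem_Ioc.1 hm).1
            omega
        _ = a := by rw [Finset.sum_const, Nat.card_Ioc, nsmul_eq_mul, mul_one]; congr 1; omega
    have e6 := Finset.sum_union_inter (s₁ := (Icc 1 N).filter (fun m => m ∈ T))
      (s₂ := Finset.Ioc N (N + a)) (f := w)
    have e7 : 0 ≤ ∑ m ∈ (Icc 1 N).filter (fun m => m ∈ T) ∩ Finset.Ioc N (N + a), w m :=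
      Finset.sum_nonneg fun m _ => hw0 m
    linarith
  proper := hproper

theorem negligible_nat : Negligible NatNull := by
  refine negligible_W (fun _ => 1) (fun N => N) (fun _ => zero_le_one) (fun _ _ => le_rfl)
    (fun a m m' _ _ _ => ?_) (fun N => Nat.cast_nonneg N) tendsto_natCast_atTop_atTop ?_
  · have : (0 : ℝ) ≤ a := Nat.cast_nonneg _
    linarith
  · intro h
    unfold WNull at h
    have h1 : Tendsto (fun N : ℕ => (∑ m ∈ Icc 1 N, (Set.univ : Set ℕ).indicator
        (fun _ => (1 : ℝ)) m) / (N : ℝ)) atTop (𝓝 1) := by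
      refine tendsto_const_nhds.congr' ?_
      filter_upwards [eventually_gt_atTop 0] with N hN
      have : (N : ℝ) ≠ 0 := by positivity
      simp [this]
    exact zero_ne_one (tendsto_nhds_unique h h1)

theorem negligible_log : Negligible LogNull := by
  refine negligible_W (fun m => 1 / (m : ℝ)) (fun N => Real.log N) (fun _ => by positivity)
    (fun m hm => ?_) (fun a m m' hm hm' h => ?_) (fun N => Real.log_natCast_nonneg N)
    (Real.tendsto_log_atTop.comp tendsto_natCast_atTop_atTop) ?_
  · have h2 : (1 : ℝ) ≤ m := by exact_mod_cast hm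
    rw [div_le_one (by linarith)]
    exact h2
  · have hmR : (0 : ℝ) < m := by exact_mod_cast hm
    have hm'R : (0 : ℝ) < m' := by exact_mod_cast hm'
    rw [mul_one_div, div_le_div_iff₀ hmR hm'R, one_mul]
    have h3 : (m' : ℝ) ≤ m + a := by exact_mod_cast h
    have h4 : (1 : ℝ) ≤ m := by exact_mod_cast hm
    have h5 : (0 : ℝ) ≤ a := Nat.cast_nonneg _
    nlinarith
  · intro h
    unfold WNull at h
    have h1 := h.eventually_lt_const one_pos
    obtain ⟨N, hN1, hN2⟩ := (h1.and (eventually_ge_atTop 3)).exists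
    have hlog : 0 < Real.log N := Real.log_pos (by
      have : (3 : ℝ) ≤ N := by exact_mod_cast hN2
      linarith)
    rw [div_lt_one hlog] at hN1
    simp only [Set.indicator_univ] at hN1
    have e2 := log_add_one_le_harmonic N
    have e3 : ((harmonic N : ℚ) : ℝ) = ∑ m ∈ Icc 1 N, (1 : ℝ) / m := by
      rw [harmonic_eq_sum_Icc]
      push_cast
      refine Finset.sum_congr rfl fun m _ => ?_
      rw [one_div]
    rw [e3] at e2
    have e4 : Real.log N ≤ Real.log ((N : ℝ) + 1) := by
      refine Real.log_le_log ?_ (by linarith)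
      have : (3 : ℝ) ≤ N := by exact_mod_cast hN2
      linarith
    push_cast at e2
    linarith

end Pool.Agent.H615.EG
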