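import Mathlib
import Pool.Agent.H615.EG.N
import Pool.Agent.H615.EG.G

set_option autoImplicit false

/-! # The entropy formula and the gap, with ideals -/

namespace Pool.Agent.H615.EG

open Finset Filter Topology

/-- some word is not negligible -/
theorem exists_word (J : Set ℕ → Prop) (hJ : Negligible J) (f : ℕ → ℤˣ) (n : ℕ) :
    ∃ w : Fin n → ℤˣ, ¬ J (occ f n w) := by
  classical
  by_contra hcon
  push Not at hcon
  have h1 : ∀ B : Finset (Fin n → ℤˣ), J {m | ∃ w ∈ B, m ∈ occ f n w} := by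
    intro B
    induction B using Finset.induction_on with
    | empty =>
      have : {m : ℕ | ∃ w ∈ (∅ : Finset (Fin n → ℤˣ)), m ∈ occ f n w} = ∅ := by
        ext m
        simp
      rw [this]
      exact hJ.empty
    | insert a B _ ih =>
      refine hJ.mono _ _ (hJ.union _ _ (hcon a) ih) ?_
      rintro m ⟨w, hw, hm⟩
      rcases Finset.mem_insert.1 hw with rfl | hw
      · exact Or.inl hm
      · exact Or.inr ⟨w, hw, hm⟩
  refine hJ.proper (hJ.mono _ _ (h1 univ) fun m _ => ?_)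
  exact ⟨fun j => f (m + (j : ℕ) + 1), Finset.mem_univ _, fun j => rfl⟩

theorem freeDim_lower (J : Set ℕ → Prop) (hJ : Negligible J) (f : ℕ → ℤˣ) (n : ℕ) :
    2 ^ freeDim J f (Icc 1 n) ≤ wordCount J f n := by
  classical
  obtain ⟨K, hK, hKc⟩ : ∃ K, Free J f (Icc 1 n) K ∧ K.card = freeDim J f (Icc 1 n) := by
    have hne : ((Icc 1 n).powerset.filter fun K => Free J f (Icc 1 n) K).Nonempty := by
      obtain ⟨w, hw⟩ := exists_word J hJ f n
      refine ⟨∅, ?_⟩
      rw [Finset.mem_filter]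
      refine ⟨Finset.empty_mem_powerset _, Finset.empty_subset _,
        fun x => if hx : x - 1 < n then w ⟨x - 1, hx⟩ else 1, fun ε hneg => hw ?_⟩
      refine hJ.mono _ _ hneg fun m hm h hh => ?_
      rw [Finset.mem_Icc] at hh
      have hlt : h - 1 < n := by omega
      rw [if_neg (Finset.notMem_empty h)]
      beta_reduce
      rw [dif_pos hlt]
      have h1 := hm ⟨h - 1, hlt⟩
      have h2 : m + (h - 1) + 1 = m + h := by omega
      simp only at h1
      rw [h2] at h1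
      exact h1
    obtain ⟨K, hK, hKc⟩ := Finset.exists_mem_eq_sup _ hne Finset.card
    exact ⟨K, (Finset.mem_filter.1 hK).2, hKc.symm⟩
  rw [← hKc]
  obtain ⟨hKH, v, hv⟩ := hK
  have hcard : Fintype.card (K → ℤˣ) = 2 ^ K.card := by
    rw [Fintype.card_fun, Fintype.card_units_int, Fintype.card_coe]
  rw [← hcard, ← Nat.card_eq_fintype_card, ← Set.ncard_univ]
  unfold wordCount
  refine Set.ncard_le_ncard_of_injOn
    (fun e : K → ℤˣ => fun j : Fin n =>
      if hj : (j : ℕ) + 1 ∈ K then e ⟨(j : ℕ) + 1, hj⟩ else v ((j : ℕ) + 1))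
    (fun e _ hneg => ?_) ?_ (Set.toFinite _)
  · refine hv (fun x => if hx : x ∈ K then e ⟨x, hx⟩ else 1) (hJ.mono _ _ hneg ?_)
    intro m hm j
    have h2 := hm ((j : ℕ) + 1) (Finset.mem_Icc.2 ⟨by omega, j.2⟩)
    have h3 : m + (j : ℕ) + 1 = m + ((j : ℕ) + 1) := by omega
    rw [h3, h2]
    beta_reduce
    by_cases hj : (j : ℕ) + 1 ∈ K
    · rw [if_pos hj, dif_pos hj, dif_pos hj]
    · rw [if_neg hj, dif_neg hj]
  · intro e _ e' _ he
    funext x
    have hx := Finset.mem_Icc.1 (hKH x.2)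
    have h1 := congrFun he ⟨(x : ℕ) - 1, by omega⟩
    have h2 : (x : ℕ) - 1 + 1 = x := by omega
    have hmem : (x : ℕ) - 1 + 1 ∈ K := by rw [h2]; exact x.2
    simp only [dif_pos hmem] at h1
    have h3 : (⟨(x : ℕ) - 1 + 1, hmem⟩ : K) = x := Subtype.ext h2
    rw [h3] at h1
    exact h1

theorem freeDensity_le (J : Set ℕ → Prop) (f : ℕ → ℤˣ) (n : ℕ) (hn : 0 < n) :
    freeDensity J f ≤ (freeDim J f (Icc 1 n) : ℝ) / n := by
  have hbdd : BddBelow (Set.range fun H : {H : Finset ℕ // H.Nonempty} =>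
      (freeDim J f H.1 : ℝ) / H.1.card) := ⟨0, by rintro x ⟨H, rfl⟩; positivity⟩
  have h1 := ciInf_le hbdd ⟨Icc 1 n, ⟨1, Finset.mem_Icc.2 ⟨le_rfl, hn⟩⟩⟩
  simp only [Nat.card_Icc, Nat.add_sub_cancel] at h1
  exact h1

/-- squeezing between the dimension of the faces and an upper bound for the number of words -/
theorem formula_aux (J : Set ℕ → Prop) (hJ : Negligible J) (f : ℕ → ℤˣ) (C C' : ℕ → ℕ)
    (hC : ∀ n, wordCount J f n ≤ C n) (hCC' : ∀ n, C n ≤ C' n)
    (hup : ∀ H : Finset ℕ, H.Nonempty → ∀ δ : ℝ, 0 < δ → ∀ᶠ n : ℕ in atTop,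
      (C' n : ℝ) ≤ (2 : ℝ) ^ (((freeDim J f H : ℝ) / H.card + δ) * n)) :
    Tendsto (fun n : ℕ => Real.logb 2 (C n) / n) atTop (𝓝 (freeDensity J f)) ∧
      Tendsto (fun n : ℕ => (freeDim J f (Icc 1 n) : ℝ) / n) atTop (𝓝 (freeDensity J f)) := by
  have hne : Nonempty {H : Finset ℕ // H.Nonempty} := ⟨⟨{0}, Finset.singleton_nonempty 0⟩⟩
  have hpos : ∀ n, (0 : ℝ) < C n := by
    intro n
    have h1 := (freeDim_lower J hJ f n).trans (hC n)
    have : 0 < 2 ^ freeDim J f (Icc 1 n) := by positivity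
    exact_mod_cast lt_of_lt_of_le this h1
  have hmid : ∀ n : ℕ, (freeDim J f (Icc 1 n) : ℝ) / n ≤ Real.logb 2 (C n) / n := by
    intro n
    refine div_le_div_of_nonneg_right ?_ (Nat.cast_nonneg _)
    have h1 := (freeDim_lower J hJ f n).trans (hC n)
    rw [Real.le_logb_iff_rpow_le (by norm_num) (hpos n), Real.rpow_natCast]
    exact_mod_cast h1
  have hupp : ∀ δ > 0, ∀ᶠ n : ℕ in atTop, Real.logb 2 (C n) / n < freeDensity J f + δ := by
    intro δ hδ
    obtain ⟨H, hH⟩ := exists_lt_of_ciInf_lt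
      (show freeDensity J f < freeDensity J f + δ / 2 by linarith)
    filter_upwards [hup H.1 H.2 (δ / 2) (by linarith), eventually_gt_atTop 0] with n hn hn0
    have hn0' : (0 : ℝ) < n := by exact_mod_cast hn0
    have h3 : (C n : ℝ) ≤ (2 : ℝ) ^ (((freeDim J f H.1 : ℝ) / H.1.card + δ / 2) * n) := by
      refine le_trans ?_ hn
      exact_mod_cast hCC' n
    have h4 : Real.logb 2 (C n) ≤ ((freeDim J f H.1 : ℝ) / H.1.card + δ / 2) * n := by
      rw [Real.logb_le_iff_le_rpow (by norm_num) (hpos n)]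
      exact h3
    calc Real.logb 2 (C n) / n ≤ ((freeDim J f H.1 : ℝ) / H.1.card + δ / 2) * n / n :=
          div_le_div_of_nonneg_right h4 hn0'.le
      _ = (freeDim J f H.1 : ℝ) / H.1.card + δ / 2 := by field_simp
      _ < freeDensity J f + δ := by linarith
  constructor
  · rw [tendsto_order]
    constructor
    · intro a ha
      filter_upwards [eventually_gt_atTop 0] with n hn
      exact lt_of_lt_of_le ha ((freeDensity_le J f n hn).trans (hmid n))
    · intro a ha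
      filter_upwards [hupp (a - freeDensity J f) (by linarith)] with n hn
      linarith
  · rw [tendsto_order]
    constructor
    · intro a ha
      filter_upwards [eventually_gt_atTop 0] with n hn
      exact lt_of_lt_of_le ha (freeDensity_le J f n hn)
    · intro a ha
      filter_upwards [hupp (a - freeDensity J f) (by linarith)] with n hn
      have := hmid n
      linarith

section

variable (f : ℕ → ℤˣ) (P : Set ℕ) (π : ℕ → Equiv.Perm ℤˣ)

theorem formula_ideal (hprime : ∀ p ∈ P, p.Prime)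
    (hP : ¬ Summable (P.indicator fun p : ℕ => (1 : ℝ) / p))
    (hf : ∀ p ∈ P, ∀ n, ¬ p ∣ n → f (p * n) = π p (f n)) (J : Set ℕ → Prop)
    (hJ : Negligible J) :
    Tendsto (fun n : ℕ => Real.logb 2 (wordCount J f n) / n) atTop (𝓝 (freeDensity J f)) ∧
      Tendsto (fun n : ℕ => (freeDim J f (Icc 1 n) : ℝ) / n) atTop (𝓝 (freeDensity J f)) :=
  formula_aux J hJ f (wordCount J f) (wordCount J f) (fun _ => le_rfl) (fun _ => le_rfl)
    (freeDim_bound J J f fun c hc hinf H => box_ideal f P hprime hP π hf c hc J hJ hinf H)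

theorem bound_all (hprime : ∀ p ∈ P, p.Prime)
    (hP : ¬ Summable (P.indicator fun p : ℕ => (1 : ℝ) / p))
    (hf : ∀ p ∈ P, ∀ n, ¬ p ∣ n → f (p * n) = π p (f n)) (H : Finset ℕ) (hH : H.Nonempty)
    (δ : ℝ) (hδ : 0 < δ) : ∀ᶠ n : ℕ in atTop, (wordCount (fun s => s = ∅) f n : ℝ) ≤
      (2 : ℝ) ^ (((freeDim Set.Finite f H : ℝ) / H.card + δ) * n) :=
  freeDim_bound (fun s => s = ∅) Set.Finite f
    (fun c hc hinf H => box_all f P hprime hP π hf c hc hinf H) H hH δ hδ

theorem formula_all (hprime : ∀ p ∈ P, p.Prime)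
    (hP : ¬ Summable (P.indicator fun p : ℕ => (1 : ℝ) / p))
    (hf : ∀ p ∈ P, ∀ n, ¬ p ∣ n → f (p * n) = π p (f n)) :
    Tendsto (fun n : ℕ => Real.logb 2 (blockComplexity f n) / n) atTop
      (𝓝 (freeDensity Set.Finite f)) :=
  (formula_aux Set.Finite negligible_finite f (blockComplexity f)
    (wordCount (fun s => s = ∅) f) (le_blockComplexity f) (blockComplexity_le f)
    (bound_all f P π hprime hP hf)).1

end

theorem freeDim_lt (J : Set ℕ → Prop) (hmono : ∀ s t, J t → s ⊆ t → J s) (f : ℕ → ℤˣ)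
    (H : Finset ℕ) (hH : H.Nonempty) (u : ℕ → ℤˣ) (hu : J (occH f H u)) :
    (freeDim J f H : ℝ) / H.card ≤ 1 - 1 / H.card := by
  classical
  have hk : (0 : ℝ) < H.card := by exact_mod_cast hH.card_pos
  have hdim : freeDim J f H + 1 ≤ H.card := by
    unfold freeDim
    rw [Nat.succ_le_iff, Finset.sup_lt_iff hH.card_pos]
    intro K hK
    rw [Finset.mem_filter, Finset.mem_powerset] at hK
    refine lt_of_le_of_ne (Finset.card_le_card hK.1) fun hc => ?_
    have hKH : K = H := Finset.eq_of_subset_of_card_le hK.1 hc.ge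
    obtain ⟨_, v, hv⟩ := hK.2
    refine hv u (hmono _ _ hu fun m hm h hh => ?_)
    rw [hm h hh, if_pos (hKH ▸ hh)]
  have h2 : (freeDim J f H : ℝ) + 1 ≤ H.card := by exact_mod_cast hdim
  rw [div_le_iff₀ hk, sub_mul, one_mul, one_div, inv_mul_cancel₀ hk.ne']
  linarith

theorem gap_ideal (f : ℕ → ℤˣ) (P : Set ℕ) (π : ℕ → Equiv.Perm ℤˣ) (hprime : ∀ p ∈ P, p.Prime)
    (hP : ¬ Summable (P.indicator fun p : ℕ => (1 : ℝ) / p))
    (hf : ∀ p ∈ P, ∀ n, ¬ p ∣ n → f (p * n) = π p (f n)) (J : Set ℕ → Prop)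
    (hJ : Negligible J) (H : Finset ℕ) (hH : H.Nonempty) (u : ℕ → ℤˣ) (hu : J (occH f H u))
    (δ : ℝ) (hδ : 0 < δ) :
    ∀ᶠ n : ℕ in atTop,
      (wordCount J f n : ℝ) ≤ (2 : ℝ) ^ ((1 - 1 / (H.card : ℝ) + δ) * n) := by
  filter_upwards [freeDim_bound J J f (fun c hc hinf H =>
    box_ideal f P hprime hP π hf c hc J hJ hinf H) H hH δ hδ] with n hn
  refine hn.trans (Real.rpow_le_rpow_of_exponent_le (by norm_num) ?_)
  refine mul_le_mul_of_nonneg_right ?_ (Nat.cast_nonneg _)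
  have := freeDim_lt J hJ.mono f H hH u hu
  linarith

theorem gap_all (f : ℕ → ℤˣ) (P : Set ℕ) (π : ℕ → Equiv.Perm ℤˣ) (hprime : ∀ p ∈ P, p.Prime)
    (hP : ¬ Summable (P.indicator fun p : ℕ => (1 : ℝ) / p))
    (hf : ∀ p ∈ P, ∀ n, ¬ p ∣ n → f (p * n) = π p (f n))
    (H : Finset ℕ) (hH : H.Nonempty) (u : ℕ → ℤˣ) (hu : (occH f H u).Finite)
    (δ : ℝ) (hδ : 0 < δ) :
    ∀ᶠ n : ℕ in atTop,
      (blockComplexity f n : ℝ) ≤ (2 : ℝ) ^ ((1 - 1 / (H.card : ℝ) + δ) * n) := by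
  filter_upwards [bound_all f P π hprime hP hf H hH δ hδ] with n hn
  have h1 : (blockComplexity f n : ℝ) ≤ wordCount (fun s => s = ∅) f n := by
    exact_mod_cast blockComplexity_le f n
  refine (h1.trans hn).trans (Real.rpow_le_rpow_of_exponent_le (by norm_num) ?_)
  refine mul_le_mul_of_nonneg_right ?_ (Nat.cast_nonneg _)
  have := freeDim_lt Set.Finite (fun s t ht h => ht.subset h) f H hH u hu
  linarith

theorem lam_mul_prime (p : ℕ) (hp : p.Prime) (n : ℕ) (hn : ¬ p ∣ n) :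
    lam (p * n) = Equiv.mulLeft (-1 : ℤˣ) (lam n) := by
  have hn0 : n ≠ 0 := fun h => hn (h ▸ dvd_zero p)
  unfold lam
  rw [ArithmeticFunction.cardFactors_mul hp.ne_zero hn0,
    ArithmeticFunction.cardFactors_apply_prime hp, pow_add, pow_one]
  rfl

theorem primes_univ : ¬ Summable (({p : ℕ | p.Prime}).indicator fun p : ℕ => (1 : ℝ) / p) :=
  not_summable_one_div_on_primes

end Pool.Agent.H615.EG
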